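import Pool.Agent.MP_48844b_co.Mg.Prim

/-! A morphic presentation exists exactly when the parity of a position is locally determined. -/

namespace Pool.Agent.MP_48844b_co

open Finset Filter Topology

variable {K : ℕ → ℕ}

def Dense (good : ℕ → ℕ → Prop) : Prop :=
  ∀ L, ∃ L', ∀ x, ∃ z, x ≤ z ∧ z + L ≤ x + L' ∧ good z (z + L)

lemma dense_level (hK : IsKol K) {good : ℕ → ℕ → Prop} (hs : Sub good) (hd : Dense good)
    (j r : ℕ) : ∃ r', ∀ a, ∃ a1, a ≤ a1 ∧ a1 + r ≤ a + r' ∧
      good ((S K)^[j] a1) ((S K)^[j] (a1 + r)) := by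
  obtain ⟨L', hL⟩ := hd (2 ^ j * (r + 1))
  refine ⟨L', fun a => ?_⟩
  obtain ⟨z, h1, h2, h3⟩ := hL ((S K)^[j] a)
  obtain ⟨i, i1, i2⟩ := hK.iter_block j z
  have hm := hK.iter_strictMono j
  have e1 := hK.iter_add_ge j i (r + 1)
  have e2 := hK.iter_add_le j a L'
  rw [show i + (r + 1) = i + 1 + r by ring] at e1
  refine ⟨i + 1, (hm.lt_iff_lt.1 (lt_of_le_of_lt h1 i2)).le, hm.le_iff_le.1 (by omega),
    hs _ _ _ _ h3 i2.le (by omega)⟩

variable {A : Type} {σ : A → List A} {a : A} {w : ℕ → A} {τ : A → ℕ}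

theorem good_of_morphic [Fintype A] (hK : IsKol K) (h : Fix σ a w) (hτ : ∀ n, K n = τ (w n)) :
    ∃ good, Sub good ∧ Dense good ∧ Cyc K good ∧ ∃ C, ∀ j, (T K good j).card ≤ C := by
  classical
  obtain ⟨N, hN0, G, hN⟩ := exists_nrm σ
  set ρ : A → List A := fun c => it σ N [c] with hρ
  have hF : Fix ρ a w := h.pow hN0
  have hKw : (fun n => τ (w n)) = K := by funext n; rw [hτ]
  have hseg : ∀ x l, (seg w x l).map τ = seg K x l := by
    intro x l; rw [seg_map, hKw]
  obtain ⟨R, hR⟩ := runs_bound hN (hF.noPow hK hτ)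
  have hocc : Occ ρ a a := ⟨0, by simp⟩
  have hlong : ∀ b, Bot ρ G b → Occ ρ a b → Long (goodB K ρ τ b) := by
    intro b hb ho L
    obtain ⟨n, hn⟩ := hN.hG b hb.1 L
    obtain ⟨m, hm⟩ := ho.inside
    obtain ⟨z, hz⟩ := hF.factor (hm n)
    refine ⟨z, n, ?_⟩
    rw [hz, hseg]
    exact seg_infix le_rfl (by omega)
  have hrec : ∀ b, Bot ρ G b → Occ ρ a b → ∃ κ, LinRec K (goodB K ρ τ b) κ := by
    intro b hb ho
    obtain ⟨κ, hκ⟩ := lin_rec hN hb (fun n => hR n b ho)
    refine ⟨κ, ?_⟩
    rintro x l x' l' ⟨n, h1⟩ ⟨n', h2⟩ h3 h4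
    rw [Nat.add_sub_cancel_left] at h1 h2
    obtain ⟨u, u1, u2⟩ := List.infix_map_iff.1 h1
    obtain ⟨v, v1, v2⟩ := List.infix_map_iff.1 h2
    have u3 : u.length = l := by have := congrArg List.length u2; simpa using this.symm
    have v3 : v.length = l' := by have := congrArg List.length v2; simpa using this.symm
    have h5 := (hκ u v n n' u1 v1 (by omega) (by rw [u3, v3]; exact h4)).map τ
    rw [← u2, ← v2] at h5
    obtain ⟨z, z1, z2, z3⟩ := infix_seg h5
    rw [seg_length] at z2 z3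
    exact ⟨z, z1, z2, agree_of_seg z3⟩
  let β := {b : A // Bot ρ G b ∧ Occ ρ a b}
  let good : ℕ → ℕ → Prop := fun x y => ∃ b : β, goodB K ρ τ b.1 x y
  have hs : Sub good := by
    rintro x y x' y' ⟨b, h2⟩ h3 h4
    exact ⟨b, goodB_sub _ _ _ _ h2 h3 h4⟩
  have hd : Dense good := by
    intro L
    choose m hm using fun b : β => hN.hG b.1 b.2.1.1 L
    set n := ∑ b, m b with hn
    refine ⟨(R + 2) * Cst ρ ^ (n + 1) + 1, fun x => ?_⟩
    obtain ⟨t, ht⟩ := hF.seg_infix x ((R + 2) * Cst ρ ^ (n + 1) + 1) (n + 1)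
    rw [it_add, it_eq_flatMap] at ht
    obtain ⟨g, g1, g2, g3⟩ := block_inside (G := fun d => G d = true)
      (L := Cst ρ ^ (n + 1)) ht (hR t a hocc) (fun c _ => len_le_pow _ c) (by simp)
    obtain ⟨b', k1, k2⟩ := exists_bot hN g2
    let b : β := ⟨b', k2, Occ.step ⟨t, g1⟩ k1⟩
    have e1 : it ρ n [b'] <:+: seg w x ((R + 2) * Cst ρ ^ (n + 1) + 1) := by
      refine List.IsInfix.trans ?_ g3
      rw [it_succ_single]
      exact it_mem_infix _ k1
    have e2 : m b ≤ n := Finset.single_le_sum (f := m) (fun _ _ => Nat.zero_le _) (mem_univ b)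
    have e3 : L < (it ρ n [b']).length :=
      lt_of_lt_of_le (hm b) (self_mono k2.2.1 e2).length_le
    obtain ⟨z, z1, z2, z3⟩ := infix_seg e1
    refine ⟨z, z1, by omega, b, n, ?_⟩
    show _ <:+: (it ρ n [b']).map τ
    rw [z3, hseg]
    exact seg_infix le_rfl (by omega)
  choose κ hκ using fun b : β => hrec b.1 b.2.1 b.2.2
  have hc : Cyc K good := by
    rintro x l ⟨b, h2⟩
    obtain ⟨r', hr⟩ := dense_level hK hs hd 1 (κ b * l)
    obtain ⟨x0, hx0⟩ := hlong b.1 b.2.1 b.2.2 r'
    obtain ⟨a1, h3, h4, h5⟩ := hr x0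
    simp only [Function.iterate_one] at h5
    rcases Nat.eq_zero_or_pos l with rfl | hl
    · exact ⟨a1, fun i hi => absurd hi (by omega), by simpa using h5⟩
    · obtain ⟨z, z1, z2, z3⟩ := hκ b x l a1 (κ b * l) h2 (goodB_sub _ _ _ _ hx0 h3 h4) hl le_rfl
      exact ⟨z, z3, hs _ _ _ _ h5 (hK.strictMono.monotone z1) (hK.strictMono.monotone z2)⟩
  refine ⟨good, hs, hd, hc, ∑ b : β, (81 * κ b ^ 2 + 9), fun j => ?_⟩
  have hsub : T K good j ⊆ Finset.univ.biUnion (fun b : β => T K (goodB K ρ τ b.1) j) := by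
    intro t ht
    rw [mem_T] at ht
    obtain ⟨b, hb⟩ := pigeon2 (fun M (b : β) => ∃ n, Deep K (goodB K ρ τ b.1) j n M ∧
        ty K j n = t)
      (by
        rintro b M M' hM ⟨n, h1, h2⟩
        exact ⟨n, h1.mono hK goodB_sub hM, h2⟩)
      (by
        intro M
        obtain ⟨n, ⟨h1, b, h2⟩, h3⟩ := ht M
        exact ⟨b, n, ⟨h1, h2⟩, h3⟩)
    exact Finset.mem_biUnion.2 ⟨b, Finset.mem_univ _, mem_T.2 hb⟩
  refine (Finset.card_le_card hsub).trans (Finset.card_biUnion_le.trans ?_)
  exact Finset.sum_le_sum fun b _ => card_T_le hK goodB_sub (hlong b.1 b.2.1 b.2.2) (hκ b) j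

/-- the parity of a position is determined by the next `W` letters -/
def Loc (K : ℕ → ℕ) (W : ℕ) : Prop := ∀ x x', Agree K x x' W → x % 2 = x' % 2

theorem loc_of_good (hK : IsKol K) {good : ℕ → ℕ → Prop} (hs : Sub good) (hd : Dense good)
    (hc : Cyc K good) {C : ℕ} (hC : ∀ j, (T K good j).card ≤ C) : ∃ W, Loc K W := by
  by_contra hW
  have hW' : ∀ W, ∃ x x', Agree K x x' W ∧ x % 2 ≠ x' % 2 := by
    intro W
    by_contra hc
    exact hW ⟨W, fun x x' h => by_contra fun h' => hc ⟨x, x', h, h'⟩⟩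
  obtain ⟨J, hJ⟩ := T_stable hK hs hc hC
  have hm := hK.iter_strictMono (J + 1)
  have key : ∀ M, ∃ p : ℕ × ℕ, Deep K good (J + 1) p.1 M ∧ Deep K good (J + 1) p.2 M ∧
      ty K J p.1 = ty K J p.2 ∧ (S K)^[J] p.1 % 2 ≠ (S K)^[J] p.2 % 2 := by
    intro M
    obtain ⟨r1, h1⟩ := dense_level hK hs hd (J + 1) (M + M + 1)
    obtain ⟨r2, h2⟩ := dense_level hK hs hd (J + 1) r1
    obtain ⟨x, x', ha, hp⟩ := hW' (2 ^ J * (r2 + 10))
    obtain ⟨i, i1, i2⟩ := hK.iter_block J x
    have e1 := hK.iter_add_ge J i (r2 + 10)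
    have e2 := (hK.iter_strictMono J).monotone (show i + 1 ≤ i + (r2 + 10) by omega)
    have ha' := ha.shift ((S K)^[J] (i + 1) - x)
    rw [show x + ((S K)^[J] (i + 1) - x) = (S K)^[J] (i + 1) by omega] at ha'
    obtain ⟨a', b1, b2, b3⟩ := hK.recog J (a := i + 1) (b := i + (r2 + 10)) (by omega)
      (ha'.mono (by omega))
    obtain ⟨a1, c1, c2, c3⟩ := h2 (i + 1 + 4)
    obtain ⟨d, rfl⟩ := Nat.exists_eq_add_of_le c1
    obtain ⟨a2, d1, d2, d3⟩ := h1 (a' + d)
    obtain ⟨e, rfl⟩ := Nat.exists_eq_add_of_le d1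
    obtain ⟨f1, f2⟩ := hK.det J b3 (b2.mono (show d + e + M ≤ _ by omega))
    refine ⟨(i + 1 + 4 + (d + e + M), a' + (d + e + M)), ⟨by omega, ?_⟩, ⟨by omega, ?_⟩, ?_, ?_⟩
    · exact hs _ _ _ _ c3 (hm.monotone (by omega)) (hm.monotone (by omega))
    · exact hs _ _ _ _ d3 (hm.monotone (by omega)) (hm.monotone (by omega))
    · exact (ty_eq_iff hK _ _ _).2 ⟨b2 _ (by omega), f1⟩
    · dsimp only
      omega
  obtain ⟨t, ht⟩ := pigeon (fun q M => Deep K good (J + 1) q.unpair.1 M ∧
      Deep K good (J + 1) q.unpair.2 M ∧ ty K J q.unpair.1 = ty K J q.unpair.2 ∧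
      (S K)^[J] q.unpair.1 % 2 ≠ (S K)^[J] q.unpair.2 % 2)
    (fun q M M' hM h => ⟨h.1.mono hK hs hM, h.2.1.mono hK hs hM, h.2.2⟩)
    (fun q => (ty K (J + 1) q.unpair.1, ty K (J + 1) q.unpair.2))
    (((ty_fin (K := K) (J + 1)).prod (ty_fin (K := K) (J + 1))).subset (by
      rintro _ ⟨q, rfl⟩
      exact ⟨⟨_, rfl⟩, ⟨_, rfl⟩⟩))
    (fun M => by
      obtain ⟨p, hp⟩ := key M
      exact ⟨Nat.pair p.1 p.2, by simpa only [Nat.unpair_pair] using hp⟩)
  obtain ⟨q, ⟨-, -, q3, q4⟩, hq⟩ := ht 0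
  have m1 : ty K (J + 1) q.unpair.1 ∈ T K good (J + 1) := mem_T.2 fun M => by
    obtain ⟨q', h1, h2⟩ := ht M
    exact ⟨_, h1.1, (congrArg Prod.fst (h2.trans hq.symm) :)⟩
  have m2 : ty K (J + 1) q.unpair.2 ∈ T K good (J + 1) := mem_T.2 fun M => by
    obtain ⟨q', h1, h2⟩ := ht M
    exact ⟨_, h1.2.1, (congrArg Prod.snd (h2.trans hq.symm) :)⟩
  have := (hJ J le_rfl).2 _ _ m1 m2 q3
  exact q4 (((ty_eq_iff hK _ _ _).1 this).2 J (by omega))

theorem loc_of_morphic [Fintype A] (hK : IsKol K) (h : Fix σ a w) (hτ : ∀ n, K n = τ (w n)) :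
    ∃ W, Loc K W := by
  obtain ⟨good, h1, h2, h3, C, h4⟩ := good_of_morphic hK h hτ
  exact loc_of_good hK h1 h2 h3 h4

/-- no factor of length `W` has its complement among the factors -/
def NoComp (K : ℕ → ℕ) (W : ℕ) : Prop := ∀ x y, ¬ ∀ i, i < W → K (x + i) + K (y + i) = 3

lemma comp_down (hK : IsKol K) {x x' r : ℕ} (hp : x % 2 ≠ x' % 2) (h : Agree K x x' r) :
    ∀ t, t < S K (x + r) - S K x → K (S K x + t) + K (S K x' + t) = 3 := by
  intro t ht
  obtain ⟨i, h1, h2⟩ := hK.block (S K x + t)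
  have hxi : x ≤ i := by
    by_contra hc
    have := hK.strictMono.monotone (show i + 1 ≤ x by omega)
    omega
  have hir : i < x + r := by
    by_contra hc
    have := hK.strictMono.monotone (show x + r ≤ i by omega)
    omega
  obtain ⟨d, rfl⟩ := Nat.exists_eq_add_of_le hxi
  have e1 := (h.mono (show d ≤ r by omega)).S_eq
  have e2 := (h.mono (show d + 1 ≤ r by omega)).S_eq
  rw [← add_assoc, ← add_assoc] at e2
  rw [hK.run h1 h2, hK.run (i := x' + d) (by omega) (by omega)]
  omega

lemma comp_up (hK : IsKol K) {x x' D : ℕ}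
    (h : ∀ t, t < D → K (S K x + t) + K (S K x' + t) = 3) :
    ∀ r, S K (x + r) < S K x + D → Agree K x x' r := by
  intro r
  induction r with
  | zero => intro _ i hi; omega
  | succ r ih =>
    intro hr
    have h0 : S K (x + r) < S K (x + (r + 1)) := hK.strictMono (by omega)
    have h1 := ih (by omega)
    have h2 := h1.S_eq
    have h3 := hK.S_add_le x r
    intro i hi
    by_cases hir : i < r
    · exact h1 i hir
    have : i = r := by omega
    subst this
    have a1 := h (S K (x + i) - S K x) (by omega)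
    have a2 := h (S K (x + i) - S K x + 1) (by omega)
    rw [show S K x + (S K (x + i) - S K x) = S K (x + i) by omega,
      show S K x' + (S K (x + i) - S K x) = S K (x' + i) by omega] at a1
    rw [show S K x + (S K (x + i) - S K x + 1) = S K (x + i) + 1 by omega,
      show S K x' + (S K (x + i) - S K x + 1) = S K (x' + i) + 1 by omega] at a2
    have b1 := hK.eq_one_iff (x + i)
    have b2 := hK.eq_one_iff (x' + i)
    rcases hK.h12 (x + i) with c | c <;> rcases hK.h12 (x' + i) with d | d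
    · omega
    · have := b1.1 c
      have := b2.2 (by omega)
      omega
    · have := b2.1 d
      have := b1.2 (by omega)
      omega
    · omega

lemma loc_iff_noComp (hK : IsKol K) : (∃ W, Loc K W) ↔ ∃ W, NoComp K W := by
  constructor
  · rintro ⟨W, hW⟩
    refine ⟨2 * W + 4, fun x y h => ?_⟩
    obtain ⟨i, h1, h2⟩ := hK.block x
    have e1 := S_succ (K := K) i
    have e2 := hK.le_two i
    obtain ⟨d, hd⟩ : ∃ d, x + d + 1 = S K (i + 1) := ⟨S K (i + 1) - x - 1, by omega⟩
    have a1 := hK.before_S hd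
    have a2 := h d (by omega)
    have a3 := h (d + 1) (by omega)
    rw [← add_assoc, ← add_assoc] at a3
    obtain ⟨i', hi'⟩ := hK.boundary (x := y + d) (by omega)
    have a4 := hK.at_S (i + 1)
    have a5 := hK.at_S i'
    rw [← hd] at a4
    rw [← hi'] at a5
    have a6 := hK.S_add_ge (i + 1) W
    have := hW (i + 1) i' (comp_up hK (D := 2 * W + 1) (fun t ht => by
      have := h (d + 1 + t) (by omega)
      rwa [show x + (d + 1 + t) = S K (i + 1) + t by omega,
        show y + (d + 1 + t) = S K i' + t by omega] at this) W (by omega))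
    omega
  · rintro ⟨W, hW⟩
    refine ⟨W, fun x x' h => by_contra fun hp => hW (S K x) (S K x') fun t ht => ?_⟩
    have := hK.S_add_le x W
    exact comp_down hK hp h t (by omega)

lemma seg_append {B : Type} (c : ℕ → B) (x l l' : ℕ) :
    seg c x (l + l') = seg c x l ++ seg c (x + l) l' := by
  induction l' with
  | zero => simp [seg]
  | succ l' ih => rw [← add_assoc, seg_succ, ih, seg_succ, List.append_assoc, add_assoc]

theorem fix_of_blocks {B : Type} (c : ℕ → B) (P : ℕ → ℕ) (hP : StrictMono P) (h0 : P 0 = 0)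
    (h1 : 2 ≤ P 1) (hdet : ∀ n n', c n = c n' →
      seg c (P n) (P (n + 1) - P n) = seg c (P n') (P (n' + 1) - P n')) :
    ∃ ρ : B → List B, Fix ρ (c 0) c ∧ ∀ m, (it ρ m [c 0]).length = P^[m] 1 := by
  classical
  let ρ : B → List B := fun x =>
    if h : ∃ n, c n = x then seg c (P h.choose) (P (h.choose + 1) - P h.choose) else []
  have hρ : ∀ n, ρ (c n) = seg c (P n) (P (n + 1) - P n) := by
    intro n
    have h : ∃ n', c n' = c n := ⟨n, rfl⟩
    simp only [ρ, dif_pos h]
    exact hdet _ _ h.choose_spec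
  have hflat : ∀ r, (seg c 0 r).flatMap ρ = seg c 0 (P r) := by
    intro r
    induction r with
    | zero => simp [seg, h0]
    | succ r ih =>
      have := hP.monotone (show r ≤ r + 1 by omega)
      rw [seg_succ, List.flatMap_append, ih, zero_add, List.flatMap_singleton, hρ,
        show P (r + 1) = P r + (P (r + 1) - P r) by omega, seg_append, zero_add]
      congr 2
      omega
  have hit : ∀ m, it ρ m [c 0] = seg c 0 (P^[m] 1) := by
    intro m
    induction m with
    | zero => simp [seg]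
    | succ m ih => rw [it_succ', ih, hflat, Function.iterate_succ_apply']
  have hg : ∀ m, m + 1 ≤ P^[m] 1 := by
    intro m
    induction m with
    | zero => simp
    | succ m ih =>
      rw [Function.iterate_succ_apply']
      have a1 := hP.monotone ih
      have a2 := hP.add_le_nat m 1
      omega
  refine ⟨ρ, ⟨fun n m x hx => ?_, fun N => ⟨N, ?_⟩⟩, fun m => by rw [hit, seg_length]⟩
  · rw [hit] at hx
    have hm : m < P^[n] 1 := by
      have := (List.getElem?_eq_some_iff.1 hx).1
      rwa [seg_length] at this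
    rw [seg_get hm, zero_add] at hx
    exact Option.some.inj hx
  · rw [hit, seg_length]
    exact hg N

lemma S_one (hK : IsKol K) : S K 1 = 1 := by
  have h := hK.at_S 0
  rw [S_zero] at h
  rw [S_succ, S_zero, h]

lemma S_two (hK : IsKol K) : S K 2 = 3 := by
  have h := hK.at_S 1
  rw [S_one hK] at h
  rw [S_succ, S_one hK, h]

theorem morphic_of_loc (hK : IsKol K) {W : ℕ} (hW : Loc K W) :
    ∃ (k : ℕ) (ρ : Fin k → List (Fin k)) (c : ℕ → Fin k) (τ : Fin k → ℕ),
      Fix ρ (c 0) c ∧ (∀ n, K n = τ (c n)) ∧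
        ∀ m, (it ρ (m + 1) [c 0]).length = (S K)^[m] 2 := by
  classical
  let B := Fin 3 × (Fin (W + 3) → Bool)
  let e := Fintype.equivFin B
  let c0 : ℕ → B := fun n => (⟨min n 2, by omega⟩, fun i => decide (K (n + i) = 1))
  let P : ℕ → ℕ := fun n => if n = 1 then 2 else S K n
  have hP2 : ∀ n, 2 ≤ n → P n = S K n := fun n hn => if_neg (by omega)
  have hS : ∀ n, n ≤ S K n := fun n => hK.strictMono.le_apply
  have hP : StrictMono P := by
    apply strictMono_nat_of_lt_succ
    intro n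
    rcases n with _ | _ | n
    · simp [P, S_zero]
    · simp [P, S_two hK]
    · rw [hP2 _ (by omega), hP2 _ (by omega)]
      exact hK.strictMono (by omega)
  have hc : ∀ n n', c0 n = c0 n' ↔ min n 2 = min n' 2 ∧ Agree K n n' (W + 3) := by
    intro n n'
    constructor
    · intro h
      refine ⟨congrArg (fun x : B => x.1.val) h, fun i hi => ?_⟩
      have a1 : (K (n + i) = 1) ↔ (K (n' + i) = 1) :=
        decide_eq_decide.1 (congrArg (fun x : B => x.2 ⟨i, hi⟩) h)
      have := hK.h12 (n + i)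
      have := hK.h12 (n' + i)
      omega
    · rintro ⟨h, h'⟩
      exact Prod.ext (Fin.ext h) (funext fun i => decide_eq_decide.2 (by rw [h' i i.2]))
  obtain ⟨ρ, h1, h2⟩ := fix_of_blocks (fun n => e (c0 n)) P hP (by simp [P, S_zero])
    (by simp [P]) (by
      intro n n' h
      obtain ⟨a1, a2⟩ := (hc n n').1 (e.injective h)
      by_cases hn : n = n'
      · rw [hn]
      have a3 := hK.agree_down (hW _ _ (a2.mono (by omega))) a2
      have a4 := hK.three_ge n
      have a5 := hK.S_add_le (n + 3) W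
      rw [show n + 3 + W = n + (W + 3) by ring] at a5
      have a6 := a2 0 (by omega)
      simp only [add_zero] at a6
      have a7 := hK.le_two n
      rw [hP2 n (by omega), hP2 n' (by omega), hP2 _ (by omega), hP2 _ (by omega), S_succ, S_succ,
        Nat.add_sub_cancel_left, Nat.add_sub_cancel_left, ← a6]
      unfold seg
      refine List.map_congr_left fun o ho => congrArg e ((hc _ _).2 ⟨?_, ?_⟩)
      · have := hS n
        have := hS n'
        omega
      · have := List.mem_range.1 ho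
        exact (a3.shift o).mono (by omega))
  refine ⟨_, ρ, fun n => e (c0 n), fun x => if (e.symm x).2 0 then 1 else 2, h1, fun n => ?_,
    fun m => ?_⟩
  · simp only [Equiv.symm_apply_apply, c0]
    rcases hK.h12 n with h | h <;> simp [h]
  · rw [h2, Function.iterate_succ_apply, show P 1 = 2 from if_pos rfl]
    induction m with
    | zero => rfl
    | succ m ih =>
      rw [Function.iterate_succ_apply', Function.iterate_succ_apply', ih, hP2]
      exact (hK.iter_strictMono m).le_apply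

lemma integral_of_coord {E : Type} [Fintype E] (L : (E → ℤ) →ₗ[ℤ] (E → ℤ)) (v : ℕ → E → ℤ)
    (hv : ∀ i, v (i + 1) = L (v i)) (μ : ℝ) (e : E) (hpos : ∀ i, 0 < v i e)
    (h1 : Tendsto (fun i => (v (i + 1) e : ℝ) / v i e) atTop (𝓝 μ)) : IsIntegral ℤ μ := by
  classical
  set u : ℕ → ℝ := fun i => (v i e : ℝ) with hu
  have hp : ∀ i, 0 < u i := fun i => by simp only [hu]; exact_mod_cast hpos i
  have h2 : ∀ r, Tendsto (fun i => u (i + r) / u i) atTop (𝓝 (μ ^ r)) := by
    intro r
    induction r with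
    | zero =>
      simp only [add_zero, pow_zero]
      exact tendsto_const_nhds.congr fun i => (div_self (hp i).ne').symm
    | succ r ih =>
      have h3 := (h1.comp (tendsto_add_atTop_nat r)).mul ih
      rw [pow_succ']
      refine h3.congr fun i => ?_
      have := hp (i + r)
      show u (i + r + 1) / u (i + r) * (u (i + r) / u i) = u (i + r + 1) / u i
      field_simp
  obtain ⟨p, hp1, hp2⟩ := LinearMap.exists_monic_and_aeval_eq_zero ℤ L
  have hpow : ∀ r i, (L ^ r) (v i) = v (i + r) := by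
    intro r i
    induction r with
    | zero => simp
    | succ r ih => rw [pow_succ', Module.End.mul_apply, ih, ← add_assoc, hv]
  have hrec : ∀ i, ∑ r ∈ Finset.range (p.natDegree + 1), (p.coeff r : ℝ) * u (i + r) = 0 := by
    intro i
    have e1 := congrArg (fun F : Module.End ℤ (E → ℤ) => F (v i) e) hp2
    simp only [Polynomial.aeval_eq_sum_range, LinearMap.sum_apply, LinearMap.smul_apply, hpow,
      Finset.sum_apply, Pi.smul_apply, smul_eq_mul, LinearMap.zero_apply, Pi.zero_apply] at e1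
    simp only [hu]
    exact_mod_cast e1
  have h4 : Tendsto (fun i => ∑ r ∈ Finset.range (p.natDegree + 1),
      (p.coeff r : ℝ) * (u (i + r) / u i)) atTop
      (𝓝 (∑ r ∈ Finset.range (p.natDegree + 1), (p.coeff r : ℝ) * μ ^ r)) :=
    tendsto_finsetSum _ (fun r _ => (h2 r).const_mul _)
  have h5 : (fun i => ∑ r ∈ Finset.range (p.natDegree + 1),
      (p.coeff r : ℝ) * (u (i + r) / u i)) = fun _ => 0 := by
    funext i
    simp only [← mul_div_assoc]
    rw [← Finset.sum_div, hrec, zero_div]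
  rw [h5] at h4
  have h6 := tendsto_nhds_unique h4 tendsto_const_nhds
  refine ⟨p, hp1, ?_⟩
  rw [← Polynomial.aeval_def, Polynomial.aeval_eq_sum_range]
  simpa using h6

/-- the ratio of consecutive iterated sums can only converge to an algebraic integer -/
theorem integral_of_loc (hK : IsKol K) {W : ℕ} (hW : Loc K W) {μ : ℝ}
    (h : Tendsto (fun m => (((S K)^[m + 1] 2 : ℕ) : ℝ) / ((S K)^[m] 2 : ℕ)) atTop (𝓝 μ)) :
    IsIntegral ℤ μ := by
  obtain ⟨k, ρ, c, τ, -, -, h3⟩ := morphic_of_loc hK hW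
  let L : (Fin k → ℤ) →ₗ[ℤ] (Fin k → ℤ) :=
    { toFun := fun v x => ((ρ x).map v).sum
      map_add' := fun v v' => by
        funext x
        exact List.sum_map_add
      map_smul' := fun r v => by
        funext x
        exact List.sum_map_mul_left _ _ _ }
  refine integral_of_coord L (fun m x => ((it ρ (m + 1) [x]).length : ℤ)) (fun m => ?_) μ (c 0)
    (fun m => ?_) (by simpa only [h3, Int.cast_natCast] using h)
  · funext x
    show _ = ((ρ x).map _).sum
    rw [it_succ_single, it_eq_flatMap, List.length_flatMap]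
    push_cast
    rw [List.map_map]
    rfl
  · rw [h3]
    have : 2 ≤ (S K)^[m] 2 := (hK.iter_strictMono m).le_apply
    omega

theorem freq_of_loc (hK : IsKol K) {W : ℕ} (hW : Loc K W) {α : ℝ}
    (hα : Tendsto (fun n => (cnt K 0 n : ℝ) / n) atTop (𝓝 α)) :
    IsIntegral ℤ α ∧ Irrational α := by
  have hg : ∀ m, m + 2 ≤ (S K)^[m] 2 := by
    intro m
    induction m with
    | zero => simp
    | succ m ih =>
      rw [Function.iterate_succ_apply']
      have a1 := hK.strictMono.monotone ih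
      have a2 := hK.S_add_le 2 m
      rw [S_two hK, add_comm 2 m] at a2
      omega
  have ht : Tendsto (fun m => (S K)^[m] 2) atTop atTop :=
    tendsto_atTop_mono (fun m => (Nat.le_add_right m 2).trans (hg m)) tendsto_id
  have h1 : IsIntegral ℤ (2 - α) := by
    refine integral_of_loc hK hW (((hα.comp ht).const_sub 2).congr fun m => ?_)
    have a1 := S_cnt hK 0 ((S K)^[m] 2)
    rw [zero_add, S_zero, zero_add] at a1
    have a2 : ((S K ((S K)^[m] 2) : ℕ) : ℝ) + cnt K 0 ((S K)^[m] 2) = 2 * ((S K)^[m] 2 : ℕ) := by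
      exact_mod_cast a1
    have a3 : (0 : ℝ) < ((S K)^[m] 2 : ℕ) := by
      have := hg m
      exact_mod_cast (by omega : 0 < (S K)^[m] 2)
    rw [Function.iterate_succ_apply']
    simp only [Function.comp]
    field_simp
    linarith
  have h2 : IsIntegral ℤ α := by
    have h3 : IsIntegral ℤ (2 : ℝ) := by
      have := isIntegral_algebraMap (R := ℤ) (A := ℝ) (x := 2)
      simpa using this
    have := h3.sub h1
    simpa using this
  refine ⟨h2, ?_⟩
  have ht3 := hα.comp (show Tendsto (fun i : ℕ => 3 * i) atTop atTop from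
    tendsto_id.const_mul_atTop' (by norm_num))
  have b1 : 1 / 3 ≤ α := by
    apply ge_of_tendsto ht3
    filter_upwards [eventually_ge_atTop 1] with i hi
    have h1 : (i : ℝ) ≤ cnt K 0 (3 * i) := by exact_mod_cast (cnt_three hK i).1
    have hpos : (0 : ℝ) < i := by exact_mod_cast (show 0 < i by omega)
    simp only [Function.comp]
    rw [le_div_iff₀ (by push_cast; positivity)]
    push_cast
    linarith
  have b2 : α ≤ 2 / 3 := by
    apply le_of_tendsto ht3
    filter_upwards [eventually_ge_atTop 1] with i hi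
    have h1 : (cnt K 0 (3 * i) : ℝ) ≤ 2 * i := by exact_mod_cast (cnt_three hK i).2
    have hpos : (0 : ℝ) < i := by exact_mod_cast (show 0 < i by omega)
    simp only [Function.comp]
    rw [div_le_iff₀ (by push_cast; positivity)]
    push_cast
    linarith
  rintro ⟨q, rfl⟩
  have h3 : IsIntegral ℤ q := by
    have : ((q : ℚ) : ℝ) = algebraMap ℚ ℝ q := rfl
    rw [this] at h2
    exact (isIntegral_algebraMap_iff (algebraMap ℚ ℝ).injective).1 h2
  obtain ⟨z, hz⟩ := IsIntegrallyClosed.isIntegral_iff.1 h3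
  rw [← hz] at b1 b2
  simp only [eq_intCast, Rat.cast_intCast] at b1 b2
  have c1 : (0 : ℝ) < z := by linarith
  have c2 : (z : ℝ) < 1 := by linarith
  have d1 : 0 < z := by exact_mod_cast c1
  have d2 : z < 1 := by exact_mod_cast c2
  omega

end Pool.Agent.MP_48844b_co
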