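import Mathlib

-- part MP_48844b_co.Kol
section

/-! Basic facts about a sequence equal to its own run-length sequence. -/

namespace Pool.Agent.MP_48844b_co

open Finset

structure IsKol (K : ℕ → ℕ) : Prop where
  h12 : ∀ n, K n = 1 ∨ K n = 2
  hrun : ∀ n i, (∑ j ∈ Finset.range i, K j) ≤ n →
      n < (∑ j ∈ Finset.range (i + 1), K j) → K n = 1 + i % 2

def S (K : ℕ → ℕ) (n : ℕ) : ℕ := ∑ j ∈ Finset.range n, K j

def Agree (K : ℕ → ℕ) (x x' r : ℕ) : Prop := ∀ i, i < r → K (x + i) = K (x' + i)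

def Par (K : ℕ → ℕ) (j x x' : ℕ) : Prop := ∀ i, i < j → (S K)^[i] x % 2 = (S K)^[i] x' % 2

variable {K : ℕ → ℕ}

lemma S_succ (n : ℕ) : S K (n + 1) = S K n + K n := by
  simp [S, Finset.sum_range_succ]

lemma S_zero : S K 0 = 0 := by simp [S]

lemma Agree.mono {x x' r r' : ℕ} (h : Agree K x x' r) (hr : r' ≤ r) : Agree K x x' r' :=
  fun i hi => h i (by omega)

lemma Agree.shift {x x' r : ℕ} (h : Agree K x x' r) (d : ℕ) :
    Agree K (x + d) (x' + d) (r - d) := by
  intro i hi
  have := h (d + i) (by omega)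
  simpa [add_assoc] using this

lemma Agree.symm {x x' r : ℕ} (h : Agree K x x' r) : Agree K x' x r :=
  fun i hi => (h i hi).symm

lemma Agree.trans {x x' x'' r : ℕ} (h : Agree K x x' r) (h' : Agree K x' x'' r) :
    Agree K x x'' r := fun i hi => (h i hi).trans (h' i hi)

lemma Agree.S_eq {x x' r : ℕ} (h : Agree K x x' r) :
    S K (x + r) + S K x' = S K (x' + r) + S K x := by
  induction r with
  | zero => simp [add_comm]
  | succ r ih =>
    have h1 := ih (h.mono (Nat.le_succ r))
    have h2 := h r (Nat.lt_succ_self r)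
    rw [← add_assoc, ← add_assoc, S_succ, S_succ]
    omega

lemma par_succ {j x x' : ℕ} :
    Par K (j + 1) x x' ↔ x % 2 = x' % 2 ∧ Par K j (S K x) (S K x') := by
  constructor
  · intro h
    refine ⟨by simpa using h 0 (by omega), fun i hi => ?_⟩
    have := h (i + 1) (by omega)
    simpa [Function.iterate_succ_apply] using this
  · rintro ⟨h0, h⟩ i hi
    cases i with
    | zero => simpa using h0
    | succ i =>
      have := h i (by omega)
      simpa [Function.iterate_succ_apply] using this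

namespace IsKol

variable (hK : IsKol K)
include hK

lemma pos (n : ℕ) : 1 ≤ K n := by rcases hK.h12 n with h | h <;> omega

lemma le_two (n : ℕ) : K n ≤ 2 := by rcases hK.h12 n with h | h <;> omega

lemma S_add_le (x r : ℕ) : S K x + r ≤ S K (x + r) := by
  induction r with
  | zero => simp
  | succ r ih =>
    rw [← add_assoc, ← add_assoc, S_succ]
    have := hK.pos (x + r)
    omega

lemma S_add_ge (x r : ℕ) : S K (x + r) ≤ S K x + 2 * r := by
  induction r with
  | zero => simp
  | succ r ih =>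
    rw [← add_assoc, S_succ]
    have := hK.le_two (x + r)
    omega

lemma strictMono : StrictMono (S K) := by
  apply strictMono_nat_of_lt_succ
  intro n
  rw [S_succ]
  have := hK.pos n
  omega

lemma S_le {x y : ℕ} (h : x ≤ y) : S K x + (y - x) ≤ S K y := by
  have := hK.S_add_le x (y - x)
  rwa [Nat.add_sub_cancel' h] at this

lemma iter_strictMono (j : ℕ) : StrictMono (S K)^[j] := hK.strictMono.iterate j

lemma iter_add_le (j x r : ℕ) : (S K)^[j] x + r ≤ (S K)^[j] (x + r) := by
  induction r with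
  | zero => simp
  | succ r ih =>
    have := hK.iter_strictMono j (Nat.lt_succ_self (x + r))
    rw [← add_assoc, ← add_assoc]
    simp only [Nat.succ_eq_add_one] at this
    omega

lemma iter_add_ge (j : ℕ) : ∀ x r : ℕ, (S K)^[j] (x + r) ≤ (S K)^[j] x + 2 ^ j * r := by
  induction j with
  | zero => simp
  | succ j ih =>
    intro x r
    rw [Function.iterate_succ_apply, Function.iterate_succ_apply]
    have h1 := hK.S_add_ge x r
    have h2 := (hK.iter_strictMono j).monotone h1
    have h3 := ih (S K x) (2 * r)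
    have : 2 ^ (j + 1) * r = 2 ^ j * (2 * r) := by ring
    omega

lemma iter_zero (j : ℕ) : (S K)^[j] 0 = 0 := by
  induction j with
  | zero => rfl
  | succ j ih => rw [Function.iterate_succ_apply, S_zero, ih]

lemma iter_block (j x : ℕ) : ∃ i, (S K)^[j] i ≤ x ∧ x < (S K)^[j] (i + 1) := by
  induction x with
  | zero =>
    refine ⟨0, by rw [hK.iter_zero], ?_⟩
    have := hK.iter_add_le j 0 1
    rw [hK.iter_zero] at this
    omega
  | succ x ih =>
    obtain ⟨i, h1, h2⟩ := ih
    by_cases h : x + 1 < (S K)^[j] (i + 1)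
    · exact ⟨i, by omega, h⟩
    · refine ⟨i + 1, by omega, ?_⟩
      have := hK.iter_add_le j (i + 1) 1
      omega

lemma block (x : ℕ) : ∃ i, S K i ≤ x ∧ x < S K (i + 1) := hK.iter_block 1 x

lemma run {n i : ℕ} (h1 : S K i ≤ n) (h2 : n < S K (i + 1)) : K n = 1 + i % 2 :=
  hK.hrun n i h1 h2

lemma at_S (i : ℕ) : K (S K i) = 1 + i % 2 :=
  hK.run le_rfl (hK.strictMono (Nat.lt_succ_self i))

lemma boundary {x : ℕ} (h : K x ≠ K (x + 1)) : ∃ i, x + 1 = S K i := by
  obtain ⟨i, h1, h2⟩ := hK.block (x + 1)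
  by_cases h3 : S K i ≤ x
  · exfalso
    apply h
    rw [hK.run h3 (by omega), hK.run h1 h2]
  · exact ⟨i, by omega⟩

lemma before_S {i x : ℕ} (h : x + 1 = S K (i + 1)) : K x ≠ K (x + 1) := by
  have h1 : S K i < S K (i + 1) := hK.strictMono (Nat.lt_succ_self i)
  rw [hK.run (i := i) (by omega) (by omega), h, hK.at_S]
  omega

lemma not_three (x : ℕ) : ¬ (K x = K (x + 1) ∧ K (x + 1) = K (x + 2)) := by
  rintro ⟨h1, h2⟩
  obtain ⟨i, h3, h4⟩ := hK.block x
  have h5 := S_succ (K := K) i
  have h6 := hK.le_two i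
  have : x + 1 = S K (i + 1) ∨ x + 1 + 1 = S K (i + 1) := by omega
  rcases this with h | h
  · exact hK.before_S h h1
  · exact hK.before_S h h2

lemma three_ge (x : ℕ) : S K x + 4 ≤ S K (x + 3) := by
  have h := hK.not_three x
  have e : S K (x + 3) = S K x + K x + K (x + 1) + K (x + 2) := by
    rw [show x + 3 = x + 1 + 1 + 1 by ring, S_succ, S_succ, S_succ]
  rcases hK.h12 x with a | a <;> rcases hK.h12 (x + 1) with b | b <;>
    rcases hK.h12 (x + 2) with c | c <;> omega

lemma three_le (x : ℕ) : S K (x + 3) ≤ S K x + 5 := by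
  have h := hK.not_three x
  have e : S K (x + 3) = S K x + K x + K (x + 1) + K (x + 2) := by
    rw [show x + 3 = x + 1 + 1 + 1 by ring, S_succ, S_succ, S_succ]
  rcases hK.h12 x with a | a <;> rcases hK.h12 (x + 1) with b | b <;>
    rcases hK.h12 (x + 2) with c | c <;> omega

lemma four_ge (x : ℕ) : S K x + 5 ≤ S K (x + 4) := by
  have h1 := hK.three_ge x
  have h2 := hK.S_add_le (x + 3) 1
  rw [show x + 3 + 1 = x + 4 by ring] at h2
  omega

lemma iter_three (j x : ℕ) : (S K)^[j] x + (j + 3) ≤ (S K)^[j] (x + 3) := by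
  induction j with
  | zero => simp
  | succ j ih =>
    rw [Function.iterate_succ_apply', Function.iterate_succ_apply']
    have h1 := hK.strictMono.monotone ih
    have h2 := hK.three_ge ((S K)^[j] x)
    have h3 := hK.S_add_le ((S K)^[j] x + 3) j
    rw [show (S K)^[j] x + 3 + j = (S K)^[j] x + (j + 3) by ring] at h3
    omega

/-- integration: equal parity and equal letters give equal letters one level down -/
lemma agree_down {x x' r : ℕ} (hp : x % 2 = x' % 2) (h : Agree K x x' r) :
    Agree K (S K x) (S K x') (S K (x + r) - S K x) := by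
  intro t ht
  obtain ⟨i, h1, h2⟩ := hK.block (S K x + t)
  have hxi : x ≤ i := by
    by_contra hc
    have := hK.strictMono.monotone (show i + 1 ≤ x by omega)
    omega
  have hir : i < x + r := by
    by_contra hc
    have := hK.strictMono.monotone (show x + r ≤ i by omega)
    omega
  obtain ⟨d, rfl⟩ := Nat.exists_eq_add_of_le hxi
  have e1 := (h.mono (show d ≤ r by omega)).S_eq
  have e2 := (h.mono (show d + 1 ≤ r by omega)).S_eq
  rw [← add_assoc, ← add_assoc] at e2
  rw [hK.run h1 h2, hK.run (i := x' + d) (by omega) (by omega)]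
  omega

lemma det (j : ℕ) : ∀ {x x' r : ℕ}, Par K j x x' → Agree K x x' r →
    Par K j (x + r) (x' + r) ∧
      (S K)^[j] (x + r) + (S K)^[j] x' = (S K)^[j] (x' + r) + (S K)^[j] x := by
  induction j with
  | zero =>
    intro x x' r _ _
    exact ⟨fun i hi => absurd hi (by omega), by simp; omega⟩
  | succ j ih =>
    intro x x' r hp ha
    rw [par_succ] at hp ⊢
    have h1 := hK.agree_down hp.1 ha
    have h2 := ha.S_eq
    have h3 := hK.S_add_le x r
    obtain ⟨h4, h5⟩ := ih hp.2 h1
    have e1 : S K x + (S K (x + r) - S K x) = S K (x + r) := by omega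
    have e2 : S K x' + (S K (x + r) - S K x) = S K (x' + r) := by omega
    rw [e1, e2] at h4 h5
    refine ⟨⟨by omega, h4⟩, ?_⟩
    simpa only [Function.iterate_succ_apply] using h5

lemma eq_one_iff (i : ℕ) : K i = 1 ↔ K (S K i) ≠ K (S K i + 1) := by
  have e := S_succ (K := K) i
  constructor
  · intro h
    exact hK.before_S (i := i) (by omega)
  · intro h
    rcases hK.h12 i with a | a
    · exact a
    · exfalso
      apply h
      rw [hK.at_S, hK.run (i := i) (by omega) (by omega)]

/-- derivation: agreement at run starts gives agreement of run lengths -/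
lemma agree_up {x x' D : ℕ} (h : Agree K (S K x) (S K x') D) :
    ∀ r, S K (x + r) < S K x + D → Agree K x x' r := by
  intro r
  induction r with
  | zero => intro _ i hi; omega
  | succ r ih =>
    intro hr
    have h0 : S K (x + r) < S K (x + (r + 1)) := hK.strictMono (by omega)
    have h1 := ih (by omega)
    have h2 := h1.S_eq
    have h3 := hK.S_add_le x r
    intro i hi
    by_cases hir : i < r
    · exact h1 i hir
    have : i = r := by omega
    subst this
    have a1 := h (S K (x + i) - S K x) (by omega)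
    have a2 := h (S K (x + i) - S K x + 1) (by omega)
    rw [show S K x + (S K (x + i) - S K x) = S K (x + i) by omega,
      show S K x' + (S K (x + i) - S K x) = S K (x' + i) by omega] at a1
    rw [show S K x + (S K (x + i) - S K x + 1) = S K (x + i) + 1 by omega,
      show S K x' + (S K (x + i) - S K x + 1) = S K (x' + i) + 1 by omega] at a2
    have b1 := hK.eq_one_iff (x + i)
    have b2 := hK.eq_one_iff (x' + i)
    rw [a1, a2] at b1
    rcases hK.h12 (x + i) with c | c <;> rcases hK.h12 (x' + i) with d | d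
    · omega
    · have := b2.2 (b1.1 c); omega
    · have := b1.2 (b2.1 d); omega
    · omega

/-- recognisability of level-`j` blocks -/
lemma recog (j : ℕ) : ∀ {a b z : ℕ}, a + 9 ≤ b →
    Agree K ((S K)^[j] a) z ((S K)^[j] b - (S K)^[j] a) →
    ∃ a', (S K)^[j] a' + (S K)^[j] a = z + (S K)^[j] (a + 4) ∧
      Agree K (a + 4) a' (b - a - 8) ∧ Par K j (a + 4) a' := by
  induction j with
  | zero =>
    intro a b z hab h
    refine ⟨z + 4, by simp; omega, ?_, fun i hi => absurd hi (by omega)⟩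
    simp only [Function.iterate_zero, id] at h
    exact (h.shift 4).mono (by omega)
  | succ j ih =>
    intro a b z hab h
    simp only [Function.iterate_succ_apply] at h ⊢
    have h1 := hK.S_le (show a ≤ b by omega)
    obtain ⟨a2, e1, e2, e3⟩ := ih (show S K a + 9 ≤ S K b by omega) h
    have h2 := hK.four_ge a
    have h3 := hK.S_le (show a + 4 ≤ b by omega)
    obtain ⟨d, hd⟩ : ∃ d, S K (a + 4) = S K a + 4 + (d + 1) := ⟨S K (a + 4) - S K a - 5, by omega⟩
    have b1 : K (S K a + 4 + d) ≠ K (S K a + 4 + d + 1) :=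
      hK.before_S (i := a + 3) (by rw [show a + 3 + 1 = a + 4 by ring]; omega)
    have b2 := e2 d (by omega)
    have b3 := e2 (d + 1) (by omega)
    rw [← add_assoc, ← add_assoc] at b3
    rw [b2, b3] at b1
    obtain ⟨a', ha'⟩ := hK.boundary b1
    obtain ⟨p1, p2⟩ := hK.det j e3 (e2.mono (show d + 1 ≤ S K b - S K a - 8 by omega))
    rw [← hd, ← add_assoc, ha'] at p1 p2
    have c1 := e2.shift (d + 1)
    rw [← hd, ← add_assoc, ha'] at c1
    refine ⟨a', by omega, ?_, ?_⟩
    · apply hK.agree_up c1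
      have := hK.four_ge (b - 4)
      rw [show b - 4 + 4 = b by omega] at this
      rw [show a + 4 + (b - a - 8) = b - 4 by omega]
      omega
    · rw [par_succ]
      refine ⟨?_, p1⟩
      have := c1 0 (by omega)
      simp only [add_zero] at this
      rw [hK.at_S, hK.at_S] at this
      omega

/-- no arbitrarily long stretch with a fixed period -/
lemma no_period (p : ℕ) : ∃ L, ∀ q, 1 ≤ q → q ≤ p → ∀ x, ¬ Agree K x (x + q) L := by
  induction p with
  | zero => exact ⟨0, fun q h1 h2 => by omega⟩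
  | succ p ih =>
    obtain ⟨L, hL⟩ := ih
    refine ⟨2 * L + 12, fun q h1 h2 x h => ?_⟩
    obtain ⟨i, i1, i2⟩ := hK.block x
    have i3 := S_succ (K := K) i
    have i4 := hK.le_two i
    obtain ⟨d, hd⟩ : ∃ d, S K (i + 1) = x + d + 1 := ⟨S K (i + 1) - x - 1, by omega⟩
    have b1 : K (x + d) ≠ K (x + d + 1) := hK.before_S (i := i) hd.symm
    have b2 := h d (by omega)
    have b3 := h (d + 1) (by omega)
    rw [← add_assoc, ← add_assoc] at b3
    rw [b2, b3] at b1
    obtain ⟨i', hi'⟩ := hK.boundary b1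
    have c1 := h.shift (d + 1)
    rw [← add_assoc, ← add_assoc, ← hd, hi'] at c1
    have hlt : i + 1 < i' := by
      apply hK.strictMono.lt_iff_lt.1
      omega
    obtain ⟨q', rfl⟩ : ∃ q', i' = i + 1 + q' := ⟨i' - (i + 1), by omega⟩
    have c2 := hK.agree_up c1 (L + 3) (by have := hK.S_add_ge (i + 1) (L + 3); omega)
    have c3 := hK.S_add_le (i + 1) q'
    by_cases hq : q' ≤ p
    · exact hL q' (by omega) hq _ (c2.mono (by omega))
    have hone : ∀ t, t < q' → K (i + 1 + t) = 1 := by
      intro t ht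
      have d1 := hK.S_add_le (i + 1) t
      have d2 := S_succ (K := K) (i + 1 + t)
      have d3 := hK.S_le (show i + 1 + t + 1 ≤ i + 1 + q' by omega)
      have d4 := hK.pos (i + 1 + t)
      omega
    have hall : ∀ t, t < 3 → K (i + 1 + t) = 1 := by
      intro t
      induction t using Nat.strong_induction_on with
      | _ t iht =>
        intro ht
        by_cases h5 : t < q'
        · exact hone t h5
        · have := c2 (t - q') (by omega)
          rw [show i + 1 + q' + (t - q') = i + 1 + t by omega] at this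
          rw [← this]
          exact iht _ (by omega) (by omega)
    apply hK.not_three (i + 1)
    have t0 := hall 0 (by omega)
    have t1 := hall 1 (by omega)
    have t2 := hall 2 (by omega)
    simp only [add_zero] at t0
    omega

end IsKol

end Pool.Agent.MP_48844b_co

end

-- part MP_48844b_co.Core
section

/-! Finite-state structure of level blocks and the integrality of the expansion factor. -/

namespace Pool.Agent.MP_48844b_co

open Finset Filter Topology

variable {K : ℕ → ℕ}

def ty (K : ℕ → ℕ) : ℕ → ℕ → ℕ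
  | 0, n => K n % 2
  | j + 1, n => ty K j n + 2 ^ (j + 1) * ((S K)^[j] n % 2)

lemma ty_lt (j n : ℕ) : ty K j n < 2 ^ (j + 1) := by
  induction j with
  | zero => simp only [ty]; omega
  | succ j ih =>
    simp only [ty]
    have : (S K)^[j] n % 2 = 0 ∨ (S K)^[j] n % 2 = 1 := by omega
    rcases this with h | h <;> rw [h] <;> omega

lemma ty_mod (j n : ℕ) : ty K (j + 1) n % 2 ^ (j + 1) = ty K j n := by
  simp only [ty]
  rw [Nat.add_mul_mod_self_left, Nat.mod_eq_of_lt (ty_lt j n)]

lemma ty_eq_iff (hK : IsKol K) (j n n' : ℕ) :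
    ty K j n = ty K j n' ↔ K n = K n' ∧ Par K j n n' := by
  induction j with
  | zero =>
    simp only [ty]
    constructor
    · intro h
      refine ⟨?_, fun i hi => absurd hi (by omega)⟩
      rcases hK.h12 n with a | a <;> rcases hK.h12 n' with b | b <;> omega
    · rintro ⟨h, _⟩
      rw [h]
  | succ j ih =>
    constructor
    · intro h
      have h1 : ty K j n = ty K j n' := by rw [← ty_mod j n, h, ty_mod]
      obtain ⟨h2, h3⟩ := ih.1 h1
      refine ⟨h2, fun i hi => ?_⟩
      by_cases hij : i < j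
      · exact h3 i hij
      have : i = j := by omega
      subst this
      simp only [ty] at h
      rw [h1] at h
      have h4 := Nat.add_left_cancel h
      exact Nat.eq_of_mul_eq_mul_left (by positivity) h4
    · rintro ⟨h1, h2⟩
      simp only [ty]
      rw [ih.2 ⟨h1, fun i hi => h2 i (by omega)⟩, h2 j (by omega)]

lemma ty_down (hK : IsKol K) {j j' n n' : ℕ} (hj : j ≤ j') (h : ty K j' n = ty K j' n') :
    ty K j n = ty K j n' := by
  rw [ty_eq_iff hK] at h ⊢
  exact ⟨h.1, fun i hi => h.2 i (by omega)⟩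

lemma ty_len (hK : IsKol K) {j n n' : ℕ} (h : ty K j n = ty K j n') :
    (S K)^[j] (n + 1) + (S K)^[j] n' = (S K)^[j] (n' + 1) + (S K)^[j] n := by
  rw [ty_eq_iff hK] at h
  refine (hK.det j h.2 (r := 1) ?_).2
  intro i hi
  have : i = 0 := by omega
  subst this
  simpa using h.1

lemma ty_child (hK : IsKol K) {j n n' o : ℕ} (h : ty K (j + 1) n = ty K (j + 1) n')
    (ho : o < K n) : ty K j (S K n + o) = ty K j (S K n' + o) := by
  rw [ty_eq_iff hK] at h ⊢
  obtain ⟨h1, h2⟩ := h
  rw [par_succ] at h2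
  have ha : Agree K n n' 1 := by
    intro i hi
    have : i = 0 := by omega
    subst this
    simpa using h1
  have hb := hK.agree_down h2.1 ha
  rw [S_succ, Nat.add_sub_cancel_left] at hb
  exact ⟨hb o ho, (hK.det j h2.2 (hb.mono ho.le)).1⟩

lemma pigeon {β : Type*} (P : ℕ → ℕ → Prop) (mono : ∀ n M M', M ≤ M' → P n M' → P n M)
    (g : ℕ → β) (hfin : (Set.range g).Finite) (hne : ∀ M, ∃ n, P n M) :
    ∃ t, ∀ M, ∃ n, P n M ∧ g n = t := by
  by_contra hc
  push Not at hc
  choose Mt hMt using hc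
  obtain ⟨B, hB⟩ := (hfin.image Mt).bddAbove
  obtain ⟨n, hn⟩ := hne B
  have h1 : Mt (g n) ≤ B := hB ⟨g n, ⟨n, rfl⟩, rfl⟩
  exact hMt (g n) n (mono n _ _ h1 hn) rfl

def Deep (K : ℕ → ℕ) (good : ℕ → ℕ → Prop) (j n M : ℕ) : Prop :=
  M ≤ n ∧ good ((S K)^[j] (n - M)) ((S K)^[j] (n + M))

def InT (K : ℕ → ℕ) (good : ℕ → ℕ → Prop) (j t : ℕ) : Prop :=
  ∀ M, ∃ n, Deep K good j n M ∧ ty K j n = t

open Classical in
noncomputable def T (K : ℕ → ℕ) (good : ℕ → ℕ → Prop) (j : ℕ) : Finset ℕ :=
  (Finset.range (2 ^ (j + 1))).filter (InT K good j)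

lemma mem_T {good : ℕ → ℕ → Prop} {j t : ℕ} : t ∈ T K good j ↔ InT K good j t := by
  classical
  unfold T
  rw [Finset.mem_filter, Finset.mem_range]
  constructor
  · exact fun h => h.2
  · intro h
    obtain ⟨n, _, rfl⟩ := h 0
    exact ⟨ty_lt j n, h⟩

def Sub (good : ℕ → ℕ → Prop) : Prop :=
  ∀ x y x' y', good x y → x ≤ x' → y' ≤ y → good x' y'

def Long (good : ℕ → ℕ → Prop) : Prop := ∀ L, ∃ x, good x (x + L)

lemma ty_fin (j : ℕ) : (Set.range (ty K j)).Finite := by
  apply (Set.finite_lt_nat (2 ^ (j + 1))).subset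
  rintro _ ⟨n, rfl⟩
  exact ty_lt j n

lemma Deep.mono (hK : IsKol K) {good : ℕ → ℕ → Prop} (hs : Sub good) {j n M M' : ℕ}
    (hM : M ≤ M') (h : Deep K good j n M') : Deep K good j n M := by
  refine ⟨le_trans hM h.1, hs _ _ _ _ h.2 ?_ ?_⟩
  · exact (hK.iter_strictMono j).monotone (by omega)
  · exact (hK.iter_strictMono j).monotone (by omega)

lemma exists_window (hK : IsKol K) {good : ℕ → ℕ → Prop} (hs : Sub good) (hl : Long good)
    (j r : ℕ) : ∃ a, good ((S K)^[j] a) ((S K)^[j] (a + r)) := by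
  obtain ⟨x, hx⟩ := hl (2 ^ j * (r + 1))
  obtain ⟨i, h1, h2⟩ := hK.iter_block j x
  refine ⟨i + 1, hs _ _ _ _ hx h2.le ?_⟩
  have := hK.iter_add_ge j i (r + 1)
  rw [show i + 1 + r = i + (r + 1) by ring]
  omega

lemma exists_deep (hK : IsKol K) {good : ℕ → ℕ → Prop} (hs : Sub good) (hl : Long good)
    (j M : ℕ) : ∃ n, Deep K good j n M := by
  obtain ⟨a, ha⟩ := exists_window hK hs hl j (M + M)
  refine ⟨a + M, by omega, ?_⟩
  rw [Nat.add_sub_cancel, add_assoc]
  exact ha

/-- a copy of a nine-block window has a block start of the same type -/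
lemma copy_type (hK : IsKol K) {j a z : ℕ}
    (h : Agree K ((S K)^[j] a) z ((S K)^[j] (a + 9) - (S K)^[j] a)) :
    ∃ a', (S K)^[j] a' + (S K)^[j] a = z + (S K)^[j] (a + 4) ∧ ty K j a' = ty K j (a + 4) := by
  obtain ⟨a', h1, h2, h3⟩ := hK.recog j (le_refl (a + 9)) h
  refine ⟨a', h1, ?_⟩
  rw [eq_comm, ty_eq_iff hK]
  exact ⟨by simpa using h2 0 (by omega), h3⟩

def LinRec (K : ℕ → ℕ) (good : ℕ → ℕ → Prop) (κ : ℕ) : Prop :=
  ∀ x l x' l', good x (x + l) → good x' (x' + l') → 1 ≤ l → κ * l ≤ l' →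
    ∃ z, x' ≤ z ∧ z + l ≤ x' + l' ∧ Agree K x z l

theorem card_T_le (hK : IsKol K) {good : ℕ → ℕ → Prop} (hs : Sub good) (hl : Long good)
    {κ : ℕ} (hr : LinRec K good κ) (j : ℕ) : (T K good j).card ≤ 81 * κ ^ 2 + 9 := by
  classical
  have hmono := hK.iter_strictMono j
  have hex : ∃ l, ∃ a, good ((S K)^[j] a) ((S K)^[j] (a + 9)) ∧
      (S K)^[j] (a + 9) = (S K)^[j] a + l := by
    obtain ⟨a, ha⟩ := exists_window hK hs hl j 9
    have := hK.iter_add_le j a 9
    exact ⟨(S K)^[j] (a + 9) - (S K)^[j] a, a, ha, by omega⟩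
  set l := Nat.find hex with hl_def
  obtain ⟨a0, ha0, hl0⟩ : ∃ a, good ((S K)^[j] a) ((S K)^[j] (a + 9)) ∧
      (S K)^[j] (a + 9) = (S K)^[j] a + l := Nat.find_spec hex
  have hmin : ∀ a, good ((S K)^[j] a) ((S K)^[j] (a + 9)) →
      (S K)^[j] a + l ≤ (S K)^[j] (a + 9) := by
    intro a ha
    have h1 := hK.iter_add_le j a 9
    have := Nat.find_min' hex ⟨a, ha, (show (S K)^[j] (a + 9) = (S K)^[j] a +
      ((S K)^[j] (a + 9) - (S K)^[j] a) by omega)⟩
    omega
  have hl9 : 9 ≤ l := by have := hK.iter_add_le j a0 9; omega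
  have hblock : ∀ n, good ((S K)^[j] n) ((S K)^[j] (n + 1)) →
      (S K)^[j] (n + 1) ≤ (S K)^[j] n + κ * l := by
    intro n hn
    by_contra hc
    push Not at hc
    have g1 : good ((S K)^[j] n + 1) ((S K)^[j] n + 1 + κ * l) :=
      hs _ _ _ _ hn (by omega) (by omega)
    obtain ⟨z, z1, z2, z3⟩ := hr _ l _ _ (by rw [← hl0]; exact ha0) g1 (by omega) le_rfl
    obtain ⟨a', e1, -⟩ := copy_type hK (j := j) (a := a0) (z := z)
      (by rw [hl0, Nat.add_sub_cancel_left]; exact z3)
    have k1 : (S K)^[j] a0 < (S K)^[j] (a0 + 4) := hmono (by omega)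
    have k2 : (S K)^[j] (a0 + 4) < (S K)^[j] (a0 + 9) := hmono (by omega)
    have k3 : n < a' := hmono.lt_iff_lt.1 (by omega)
    have k4 : a' < n + 1 := hmono.lt_iff_lt.1 (by omega)
    omega
  have hwin : ∀ r a, good ((S K)^[j] a) ((S K)^[j] (a + r)) →
      (S K)^[j] (a + r) ≤ (S K)^[j] a + r * (κ * l) := by
    intro r a
    induction r with
    | zero => simp
    | succ r ih =>
      intro h
      have h1 := ih (hs _ _ _ _ h le_rfl (hmono.monotone (by omega)))
      have h2 := hblock (a + r) (hs _ _ _ _ h (hmono.monotone (by omega)) (le_of_eq (by rfl)))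
      rw [← add_assoc]
      have : (r + 1) * (κ * l) = r * (κ * l) + κ * l := by ring
      omega
  obtain ⟨X, hX⟩ := hl (κ * (9 * (κ * l)))
  have hcopy : ∀ t ∈ T K good j, ∃ n, X ≤ (S K)^[j] n ∧
      (S K)^[j] n < X + κ * (9 * (κ * l)) ∧ ty K j n = t := by
    intro t ht
    obtain ⟨n, ⟨d1, d2⟩, d3⟩ := mem_T.1 ht 5
    obtain ⟨a, rfl⟩ : ∃ a, n = a + 4 := ⟨n - 4, by omega⟩
    have g1 : good ((S K)^[j] a) ((S K)^[j] (a + 9)) :=
      hs _ _ _ _ d2 (hmono.monotone (by omega)) (le_of_eq (by rfl))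
    have w1 := hwin 9 a g1
    have w2 := hK.iter_add_le j a 9
    obtain ⟨z, z1, z2, z3⟩ := hr ((S K)^[j] a) ((S K)^[j] (a + 9) - (S K)^[j] a) X _
      (by rw [Nat.add_sub_cancel' (by omega)]; exact g1) hX (by omega)
      (Nat.mul_le_mul_left κ (by omega))
    obtain ⟨a', e1, e2⟩ := copy_type hK z3
    have k1 : (S K)^[j] a < (S K)^[j] (a + 4) := hmono (by omega)
    have k2 : (S K)^[j] (a + 4) < (S K)^[j] (a + 9) := hmono (by omega)
    exact ⟨a', by omega, by omega, by rw [e2, d3]⟩
  have hex1 : ∃ n, X ≤ (S K)^[j] n := ⟨X, by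
    have := hK.iter_add_le j 0 X
    rw [hK.iter_zero] at this
    simpa using this⟩
  set n1 := Nat.find hex1 with hn1
  have hn1s : X ≤ (S K)^[j] n1 := Nat.find_spec hex1
  have hgrow : ∀ q, (S K)^[j] (n1 + 9 * q) < X + κ * (9 * (κ * l)) →
      (S K)^[j] n1 + q * l ≤ (S K)^[j] (n1 + 9 * q) := by
    intro q
    induction q with
    | zero => simp
    | succ q ih =>
      intro h
      have k1 : (S K)^[j] (n1 + 9 * q) < (S K)^[j] (n1 + 9 * (q + 1)) := hmono (by omega)
      have k0 : (S K)^[j] n1 ≤ (S K)^[j] (n1 + 9 * q) := hmono.monotone (by omega)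
      have h1 := ih (by omega)
      have h2 := hmin (n1 + 9 * q) (hs _ _ _ _ hX (by omega)
        (by rw [show n1 + 9 * q + 9 = n1 + 9 * (q + 1) by ring]; omega))
      rw [show n1 + 9 * q + 9 = n1 + 9 * (q + 1) by ring] at h2
      have : (q + 1) * l = q * l + l := by ring
      omega
  have hsub : T K good j ⊆ (Finset.range (81 * κ ^ 2 + 9)).image (fun i => ty K j (n1 + i)) := by
    intro t ht
    obtain ⟨n, c1, c2, c3⟩ := hcopy t ht
    have c4 : n1 ≤ n := Nat.find_min' hex1 c1
    rw [Finset.mem_image]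
    refine ⟨n - n1, ?_, by rw [Nat.add_sub_cancel' c4]; exact c3⟩
    rw [Finset.mem_range]
    by_contra hc
    push Not at hc
    have k1 : (S K)^[j] (n1 + 9 * (9 * κ ^ 2 + 1)) ≤ (S K)^[j] n := hmono.monotone (by omega)
    have k2 := hgrow (9 * κ ^ 2 + 1) (by omega)
    have : (9 * κ ^ 2 + 1) * l = κ * (9 * (κ * l)) + l := by ring
    omega
  calc (T K good j).card ≤ _ := Finset.card_le_card hsub
    _ ≤ _ := Finset.card_image_le
    _ = _ := Finset.card_range _

def Cyc (K : ℕ → ℕ) (good : ℕ → ℕ → Prop) : Prop :=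
  ∀ x l, good x (x + l) → ∃ x', Agree K x x' l ∧ good (S K x') (S K (x' + l))

lemma T_lift (hK : IsKol K) {good : ℕ → ℕ → Prop} (hs : Sub good) (hc : Cyc K good)
    {j t : ℕ} (ht : t ∈ T K good j) :
    ∃ n, ty K (j + 1) n ∈ T K good (j + 1) ∧ ty K j n = t := by
  have hmono := hK.iter_strictMono j
  have key : ∀ M, ∃ n, Deep K good (j + 1) n M ∧ ty K j n = t := by
    intro M
    obtain ⟨n, ⟨d1, d2⟩, d3⟩ := mem_T.1 ht (M + 5)
    obtain ⟨a, rfl⟩ : ∃ a, n = a + (M + 5) := ⟨n - (M + 5), by omega⟩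
    rw [Nat.add_sub_cancel] at d2
    have w := hK.iter_add_le j a (M + 5 + (M + 5))
    rw [← add_assoc a] at w
    obtain ⟨x', e1, e2⟩ := hc ((S K)^[j] a) ((S K)^[j] (a + (M + 5) + (M + 5)) - (S K)^[j] a)
      (by rw [Nat.add_sub_cancel' (by omega)]; exact d2)
    obtain ⟨a', f1, f2, f3⟩ := hK.recog j (show a + 9 ≤ a + (M + 5) + (M + 5) by omega) e1
    obtain ⟨g1, -⟩ := hK.det j f3 (f2.mono (show M + 1 ≤ _ by omega))
    obtain ⟨-, g2⟩ := hK.det j f3 (f2.mono (show 2 * M + 1 ≤ _ by omega))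
    have g3 := f2 (M + 1) (by omega)
    have k1 : (S K)^[j] a ≤ (S K)^[j] (a + 4) := hmono.monotone (by omega)
    have k2 : (S K)^[j] (a + 4 + (2 * M + 1)) ≤ (S K)^[j] (a + (M + 5) + (M + 5)) :=
      hmono.monotone (by omega)
    have k3 : (S K)^[j] a' ≤ (S K)^[j] (a' + (M + 1) - M) := hmono.monotone (by omega)
    refine ⟨a' + (M + 1), ⟨by omega, ?_⟩, ?_⟩
    · rw [Function.iterate_succ_apply', Function.iterate_succ_apply']
      refine hs _ _ _ _ e2 (hK.strictMono.monotone (by omega)) (hK.strictMono.monotone ?_)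
      rw [show a' + (M + 1) + M = a' + (2 * M + 1) by ring]
      omega
    · rw [← d3, eq_comm, ty_eq_iff hK]
      rw [show a + (M + 5) = a + 4 + (M + 1) by ring]
      exact ⟨g3, g1⟩
  obtain ⟨t', ht'⟩ := pigeon (fun n M => Deep K good (j + 1) n M ∧ ty K j n = t)
    (fun n M M' hM h => ⟨h.1.mono hK hs hM, h.2⟩) (ty K (j + 1)) (ty_fin _) key
  obtain ⟨n, ⟨_, h2⟩, h3⟩ := ht' 0
  refine ⟨n, ?_, h2⟩
  rw [mem_T, h3]
  intro M
  obtain ⟨n', ⟨h4, _⟩, h5⟩ := ht' M
  exact ⟨n', h4, h5⟩

lemma T_child (hK : IsKol K) {good : ℕ → ℕ → Prop} (hs : Sub good) {j n o : ℕ}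
    (hn : ty K (j + 1) n ∈ T K good (j + 1)) (ho : o < K n) :
    ty K j (S K n + o) ∈ T K good j := by
  have hmono := hK.iter_strictMono j
  rw [mem_T] at hn ⊢
  intro M
  obtain ⟨n', ⟨d1, d2⟩, d3⟩ := hn (M + 1)
  have e0 : K n' = K n := ((ty_eq_iff hK _ _ _).1 d3).1
  have e1 := hK.S_le (show n' - (M + 1) ≤ n' by omega)
  have e2 := hK.S_add_le (n' + 1) M
  have e3 := S_succ (K := K) n'
  refine ⟨S K n' + o, ⟨by omega, ?_⟩, ty_child hK d3 (by omega)⟩
  rw [Function.iterate_succ_apply, Function.iterate_succ_apply] at d2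
  refine hs _ _ _ _ d2 (hmono.monotone (by omega)) (hmono.monotone ?_)
  rw [show n' + (M + 1) = n' + 1 + M by ring]
  omega

lemma T_triple (hK : IsKol K) {good : ℕ → ℕ → Prop} (hs : Sub good) (hl : Long good)
    (j : ℕ) : ∃ n, ty K j n ∈ T K good j ∧ ty K j (n + 1) ∈ T K good j ∧
      ty K j (n + 2) ∈ T K good j := by
  have hmono := hK.iter_strictMono j
  have hfin : (Set.range (fun n => (ty K j n, ty K j (n + 1), ty K j (n + 2)))).Finite := by
    apply ((ty_fin (K := K) j).prod ((ty_fin (K := K) j).prod (ty_fin (K := K) j))).subset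
    rintro _ ⟨n, rfl⟩
    exact ⟨⟨n, rfl⟩, ⟨n + 1, rfl⟩, ⟨n + 2, rfl⟩⟩
  obtain ⟨t, ht⟩ := pigeon (fun n M => Deep K good j n M)
    (fun n M M' hM h => h.mono hK hs hM) _ hfin (exists_deep hK hs hl j)
  obtain ⟨n, -, hn⟩ := ht 0
  have hsh : ∀ n' M d, d ≤ 2 → Deep K good j n' (M + 2) → Deep K good j (n' + d) M := by
    intro n' M d hd h
    exact ⟨by have := h.1; omega, hs _ _ _ _ h.2 (hmono.monotone (by omega))
      (hmono.monotone (by omega))⟩
  refine ⟨n, ?_, ?_, ?_⟩ <;> rw [mem_T] <;> intro M <;> obtain ⟨n', h1, h2⟩ := ht (M + 2) <;>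
    rw [← hn] at h2 <;> simp only [Prod.mk.injEq] at h2
  · exact ⟨n' + 0, hsh n' M 0 (by omega) h1, h2.1⟩
  · exact ⟨n' + 1, hsh n' M 1 (by omega) h1, h2.2.1⟩
  · exact ⟨n' + 2, hsh n' M 2 (by omega) h1, h2.2.2⟩

lemma T_stable (hK : IsKol K) {good : ℕ → ℕ → Prop} (hs : Sub good) (hc : Cyc K good)
    {C : ℕ} (hC : ∀ j, (T K good j).card ≤ C) :
    ∃ J, ∀ j, J ≤ j →
      (∀ n, ty K (j + 1) n ∈ T K good (j + 1) → ty K j n ∈ T K good j) ∧
      (∀ n n', ty K (j + 1) n ∈ T K good (j + 1) → ty K (j + 1) n' ∈ T K good (j + 1) →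
        ty K j n = ty K j n' → ty K (j + 1) n = ty K (j + 1) n') := by
  classical
  have hsub : ∀ j, T K good j ⊆ (T K good (j + 1)).image (· % 2 ^ (j + 1)) := by
    intro j t ht
    obtain ⟨n, h1, h2⟩ := T_lift hK hs hc ht
    exact Finset.mem_image.2 ⟨_, h1, by rw [ty_mod, h2]⟩
  have hmon : Monotone (fun j => (T K good j).card) := by
    apply monotone_nat_of_le_succ
    intro j
    exact (Finset.card_le_card (hsub j)).trans Finset.card_image_le
  have hbdd : BddAbove (Set.range (fun j => (T K good j).card)) :=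
    ⟨C, by rintro _ ⟨j, rfl⟩; exact hC j⟩
  obtain ⟨J, hJ⟩ := Nat.sSup_mem (Set.range_nonempty _) hbdd
  refine ⟨J, fun j hj => ?_⟩
  have h1 : (T K good (j + 1)).card ≤ (T K good j).card := by
    have a1 : (T K good (j + 1)).card ≤ sSup (Set.range (fun j => (T K good j).card)) :=
      le_csSup hbdd ⟨j + 1, rfl⟩
    have a2 := hmon hj
    simp only at a2 hJ
    omega
  have h2 : (T K good j).card ≤ ((T K good (j + 1)).image (· % 2 ^ (j + 1))).card :=
    Finset.card_le_card (hsub j)
  have h3 : ((T K good (j + 1)).image (· % 2 ^ (j + 1))).card ≤ (T K good (j + 1)).card :=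
    Finset.card_image_le
  have h4 : T K good j = (T K good (j + 1)).image (· % 2 ^ (j + 1)) :=
    Finset.eq_of_subset_of_card_le (hsub j) (by omega)
  have h5 := Finset.card_image_iff.1 (show ((T K good (j + 1)).image (· % 2 ^ (j + 1))).card =
    (T K good (j + 1)).card by omega)
  constructor
  · intro n hn
    rw [h4]
    exact Finset.mem_image.2 ⟨_, hn, ty_mod j n⟩
  · intro n n' hn hn' h
    apply h5 (Finset.mem_coe.2 hn) (Finset.mem_coe.2 hn')
    simp only
    rw [ty_mod, ty_mod, h]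

lemma iter_split (j n : ℕ) (hK : IsKol K) : ∀ r : ℕ,
    (((S K)^[j] (n + r) : ℕ) : ℤ) - ((S K)^[j] n : ℕ) =
      ∑ o ∈ Finset.range r, ((((S K)^[j] (n + o + 1) : ℕ) : ℤ) - ((S K)^[j] (n + o) : ℕ)) := by
  intro r
  induction r with
  | zero => simp
  | succ r ih =>
    rw [Finset.sum_range_succ, ← ih, ← add_assoc]
    ring

/-- a finite linear system for the block lengths -/
theorem linear_system (hK : IsKol K) {good : ℕ → ℕ → Prop} (hs : Sub good) (hl : Long good)
    (hc : Cyc K good) {C : ℕ} (hC : ∀ j, (T K good j).card ≤ C) :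
    ∃ (E : Finset ℕ) (L : (E → ℤ) →ₗ[ℤ] (E → ℤ)) (v : ℕ → E → ℤ),
      (∀ i, v (i + 1) = L (v i)) ∧
      (∀ i e, ∃ x y : ℕ, x ≤ y ∧ v i e = (y : ℤ) - x ∧ v (i + 1) e = (S K y : ℤ) - S K x) ∧
      (∀ i : ℕ, (i : ℤ) ≤ 3 * ∑ e, v i e) := by
  classical
  obtain ⟨J, hJ⟩ := T_stable hK hs hc hC
  have hα : ∀ i n, ty K (J + i) n ∈ T K good (J + i) → ∀ i', i' ≤ i →
      ty K (J + i') n ∈ T K good (J + i') := by
    intro i n
    induction i with
    | zero => intro h i' hi'; obtain rfl : i' = 0 := by omega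
              exact h
    | succ i ih =>
      intro h i' hi'
      by_cases h1 : i' = i + 1
      · subst h1; exact h
      · exact ih ((hJ (J + i) (by omega)).1 n h) i' (by omega)
  have hβ : ∀ i n n', ty K (J + i) n ∈ T K good (J + i) → ty K (J + i) n' ∈ T K good (J + i) →
      ty K J n = ty K J n' → ty K (J + i) n = ty K (J + i) n' := by
    intro i n n'
    induction i with
    | zero => intro _ _ h; exact h
    | succ i ih =>
      intro h1 h2 h3
      exact (hJ (J + i) (by omega)).2 n n' h1 h2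
        (ih ((hJ (J + i) (by omega)).1 n h1) ((hJ (J + i) (by omega)).1 n' h2) h3)
  have hγ : ∀ i (e : T K good J), ∃ n, ty K (J + i) n ∈ T K good (J + i) ∧ ty K J n = e := by
    intro i e
    induction i with
    | zero =>
      obtain ⟨n, -, hn⟩ := mem_T.1 e.2 0
      exact ⟨n, by simp only [add_zero]; rw [hn]; exact e.2, hn⟩
    | succ i ih =>
      obtain ⟨n, h1, h2⟩ := ih
      obtain ⟨n', h3, h4⟩ := T_lift hK hs hc h1
      exact ⟨n', h3, by rw [← h2]; exact ty_down hK (by omega) h4⟩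
  choose rep hrep1 hrep2 using hγ
  let len : ℕ → ℕ → ℤ := fun j n => (((S K)^[j] (n + 1) : ℕ) : ℤ) - ((S K)^[j] n : ℕ)
  have hlen : ∀ j n n', ty K j n = ty K j n' → len j n = len j n' := by
    intro j n n' h
    have := ty_len hK h
    simp only [len]
    omega
  let v : ℕ → T K good J → ℤ := fun i e => len (J + i) (rep i e)
  have hv : ∀ i n (h : ty K (J + i) n ∈ T K good (J + i)),
      len (J + i) n = v i ⟨ty K J n, hα i n h 0 (by omega)⟩ := by
    intro i n h
    apply hlen
    exact hβ i _ _ h (hrep1 i _) (hrep2 i ⟨ty K J n, hα i n h 0 (by omega)⟩).symm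
  let child : T K good J → ℕ → T K good J := fun e o =>
    if h : ty K J (S K (rep 1 e) + o) ∈ T K good J then ⟨_, h⟩ else e
  let L : (T K good J → ℤ) →ₗ[ℤ] (T K good J → ℤ) :=
    { toFun := fun f e => ∑ o ∈ Finset.range (K (rep 1 e)), f (child e o)
      map_add' := by intro f g; funext e; simp [Finset.sum_add_distrib]
      map_smul' := by intro c f; funext e; simp [Finset.mul_sum] }
  refine ⟨T K good J, L, v, ?_, ?_, ?_⟩
  · intro i
    funext e
    have h1 := hrep1 (i + 1) e
    have h2 : ty K (J + 1) (rep (i + 1) e) = ty K (J + 1) (rep 1 e) :=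
      hβ 1 _ _ (hα _ _ h1 1 (by omega)) (hrep1 1 e) (by rw [hrep2, hrep2])
    have h3 : K (rep (i + 1) e) = K (rep 1 e) := ((ty_eq_iff hK _ _ _).1 h2).1
    show len (J + i + 1) (rep (i + 1) e) = ∑ o ∈ Finset.range (K (rep 1 e)), v i (child e o)
    simp only [len]
    rw [Function.iterate_succ_apply, Function.iterate_succ_apply, S_succ, iter_split _ _ hK, h3]
    apply Finset.sum_congr rfl
    intro o ho
    rw [Finset.mem_range] at ho
    have h4 : ty K (J + i) (S K (rep (i + 1) e) + o) ∈ T K good (J + i) :=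
      T_child hK hs h1 (by omega)
    have h5 : ty K J (S K (rep (i + 1) e) + o) = ty K J (S K (rep 1 e) + o) :=
      ty_child hK h2 (by omega)
    have h6 := hv i _ h4
    have h7 : ty K J (S K (rep 1 e) + o) ∈ T K good J := by
      rw [← h5]; exact hα i _ h4 0 (by omega)
    have h8 : child e o = ⟨ty K J (S K (rep (i + 1) e) + o), hα i _ h4 0 (by omega)⟩ := by
      simp only [child]
      rw [dif_pos h7]
      exact Subtype.ext h5.symm
    rw [h8, ← h6]
  · intro i e
    have h1 := hrep1 (i + 1) e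
    refine ⟨(S K)^[J + i] (rep (i + 1) e), (S K)^[J + i] (rep (i + 1) e + 1),
      (hK.iter_strictMono _).monotone (by omega), ?_, ?_⟩
    · exact hlen _ _ _ (hβ i _ _ (hrep1 i e) (hα _ _ h1 i (by omega)) (by rw [hrep2, hrep2]))
    · show len (J + i + 1) (rep (i + 1) e) = _
      simp only [len]
      rw [Function.iterate_succ_apply', Function.iterate_succ_apply']
  · intro i
    obtain ⟨n, h0, h1, h2⟩ := T_triple hK hs hl (J + i)
    have hnn : ∀ e, 0 ≤ v i e := by
      intro e
      have := (hK.iter_strictMono (J + i)).monotone (Nat.le_succ (rep i e))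
      simp only [v, len]
      simp only [Nat.succ_eq_add_one] at this
      omega
    have hle : ∀ e, v i e ≤ ∑ e, v i e := fun e =>
      Finset.single_le_sum (fun e _ => hnn e) (Finset.mem_univ e)
    have a0 := hle ⟨_, hα i _ h0 0 (by omega)⟩
    have a1 := hle ⟨_, hα i _ h1 0 (by omega)⟩
    have a2 := hle ⟨_, hα i _ h2 0 (by omega)⟩
    simp only [add_zero] at a0 a1 a2
    rw [← hv i _ h0] at a0
    rw [← hv i _ h1] at a1
    rw [← hv i _ h2] at a2
    have a3 := hK.iter_three (J + i) n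
    simp only [len] at a0 a1 a2
    rw [show n + 1 + 1 = n + 2 by ring] at a1
    rw [show n + 2 + 1 = n + 3 by ring] at a2
    omega

lemma integral_of_system {E : Type} [Fintype E] (L : (E → ℤ) →ₗ[ℤ] (E → ℤ)) (v : ℕ → E → ℤ)
    (hv : ∀ i, v (i + 1) = L (v i)) (μ : ℝ)
    (hg : ∀ i : ℕ, (i : ℤ) ≤ 3 * ∑ e, v i e)
    (hr : ∀ ε > 0, ∃ D : ℝ, ∀ i, |((∑ e, v (i + 1) e : ℤ) : ℝ) - μ * ((∑ e, v i e : ℤ) : ℝ)| ≤
      ε * ((∑ e, v i e : ℤ) : ℝ) + D) : IsIntegral ℤ μ := by
  classical
  set u : ℕ → ℝ := fun i => ((∑ e, v i e : ℤ) : ℝ) with hu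
  have hu3 : ∀ i : ℕ, (i : ℝ) ≤ 3 * u i := by
    intro i
    have := hg i
    simp only [hu]
    exact_mod_cast this
  have hpos : ∀ i : ℕ, 1 ≤ i → 0 < u i := by
    intro i hi
    have h1 := hu3 i
    have : (1 : ℝ) ≤ i := by exact_mod_cast hi
    linarith
  have h1 : Tendsto (fun i => u (i + 1) / u i) atTop (𝓝 μ) := by
    rw [Metric.tendsto_atTop]
    intro ε hε
    obtain ⟨D, hD⟩ := hr (ε / 2) (by positivity)
    obtain ⟨N, hN⟩ := exists_nat_gt (6 * D / ε)
    refine ⟨N + 1, fun i hi => ?_⟩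
    have p := hpos i (by omega)
    have q := hu3 i
    have q2 : (N : ℝ) ≤ i := by exact_mod_cast (show N ≤ i by omega)
    have q3 : 6 * D < N * ε := by rwa [div_lt_iff₀ hε] at hN
    rw [Real.dist_eq, show u (i + 1) / u i - μ = (u (i + 1) - μ * u i) / u i by field_simp,
      abs_div, abs_of_pos p, div_lt_iff₀ p]
    have := hD i
    nlinarith
  have h2 : ∀ r, Tendsto (fun i => u (i + r) / u i) atTop (𝓝 (μ ^ r)) := by
    intro r
    induction r with
    | zero =>
      simp only [add_zero, pow_zero]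
      apply tendsto_const_nhds.congr'
      filter_upwards [eventually_ge_atTop 1] with i hi
      rw [div_self (hpos i hi).ne']
    | succ r ih =>
      have h3 := (h1.comp (tendsto_add_atTop_nat r)).mul ih
      rw [pow_succ']
      apply h3.congr'
      filter_upwards [eventually_ge_atTop 1] with i hi
      have := hpos (i + r) (by omega)
      simp only [Function.comp]
      rw [← add_assoc]
      field_simp
  obtain ⟨p, hp1, hp2⟩ := LinearMap.exists_monic_and_aeval_eq_zero ℤ L
  have hpow : ∀ r i, (L ^ r) (v i) = v (i + r) := by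
    intro r i
    induction r with
    | zero => simp
    | succ r ih => rw [pow_succ', Module.End.mul_apply, ih, ← add_assoc, hv]
  have hrec : ∀ i, ∑ r ∈ Finset.range (p.natDegree + 1), (p.coeff r : ℝ) * u (i + r) = 0 := by
    intro i
    have e1 := congrArg (fun F : Module.End ℤ (E → ℤ) => ∑ e, F (v i) e) hp2
    simp only [Polynomial.aeval_eq_sum_range, LinearMap.sum_apply, LinearMap.smul_apply, hpow,
      Finset.sum_apply, Pi.smul_apply, smul_eq_mul, LinearMap.zero_apply, Pi.zero_apply,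
      Finset.sum_const_zero] at e1
    rw [Finset.sum_comm] at e1
    simp only [← Finset.mul_sum] at e1
    simp only [hu]
    exact_mod_cast e1
  have h4 : Tendsto (fun i => ∑ r ∈ Finset.range (p.natDegree + 1),
      (p.coeff r : ℝ) * (u (i + r) / u i)) atTop
      (𝓝 (∑ r ∈ Finset.range (p.natDegree + 1), (p.coeff r : ℝ) * μ ^ r)) :=
    tendsto_finsetSum _ (fun r _ => (h2 r).const_mul _)
  have h5 : (fun i => ∑ r ∈ Finset.range (p.natDegree + 1),
      (p.coeff r : ℝ) * (u (i + r) / u i)) = fun _ => 0 := by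
    funext i
    simp only [← mul_div_assoc]
    rw [← Finset.sum_div, hrec, zero_div]
  rw [h5] at h4
  have h6 := tendsto_nhds_unique h4 tendsto_const_nhds
  refine ⟨p, hp1, ?_⟩
  rw [← Polynomial.aeval_def, Polynomial.aeval_eq_sum_range]
  simpa using h6

theorem integral_slope (hK : IsKol K) {good : ℕ → ℕ → Prop} (hs : Sub good) (hl : Long good)
    (hc : Cyc K good) {C : ℕ} (hC : ∀ j, (T K good j).card ≤ C) (μ : ℝ)
    (hμ : ∀ ε > 0, ∃ D : ℝ, ∀ x y : ℕ, x ≤ y →
      |((S K y : ℝ) - S K x) - μ * ((y : ℝ) - x)| ≤ ε * ((y : ℝ) - x) + D) :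
    IsIntegral ℤ μ := by
  obtain ⟨E, L, v, h1, h2, h3⟩ := linear_system hK hs hl hc hC
  apply integral_of_system L v h1 μ h3
  intro ε hε
  obtain ⟨D, hD⟩ := hμ ε hε
  refine ⟨∑ _e : E, D, fun i => ?_⟩
  push_cast
  rw [Finset.mul_sum, Finset.mul_sum, ← Finset.sum_sub_distrib, ← Finset.sum_add_distrib]
  refine (Finset.abs_sum_le_sum_abs _ _).trans (Finset.sum_le_sum fun e _ => ?_)
  obtain ⟨x, y, hxy, e1, e2⟩ := h2 i e
  rw [e1, e2]
  push_cast
  exact hD x y hxy

end Pool.Agent.MP_48844b_co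

end

-- part MP_48844b_co.Words
section

/-! Iterated morphisms: decomposition lemmas, normal form, bounded runs, linear recurrence. -/

namespace Pool.Agent.MP_48844b_co

open Finset

section lists

variable {A B : Type}

def it (σ : A → List A) (n : ℕ) (l : List A) : List A := (fun l : List A => l.flatMap σ)^[n] l

variable {σ : A → List A}

@[simp] lemma it_zero (l : List A) : it σ 0 l = l := rfl

lemma it_succ (n : ℕ) (l : List A) : it σ (n + 1) l = it σ n (l.flatMap σ) := rfl

lemma it_succ' (n : ℕ) (l : List A) : it σ (n + 1) l = (it σ n l).flatMap σ := by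
  unfold it
  rw [Function.iterate_succ_apply']

lemma it_add (n m : ℕ) (l : List A) : it σ (n + m) l = it σ n (it σ m l) := by
  unfold it
  rw [Function.iterate_add_apply]

lemma it_one (c : A) : it σ 1 [c] = σ c := by simp [it]

lemma it_succ_single (n : ℕ) (c : A) : it σ (n + 1) [c] = it σ n (σ c) := by
  rw [it_succ]; simp

lemma it_append (n : ℕ) : ∀ l l' : List A, it σ n (l ++ l') = it σ n l ++ it σ n l' := by
  induction n with
  | zero => intro l l'; rfl
  | succ n ih => intro l l'; rw [it_succ, it_succ, it_succ, List.flatMap_append, ih]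

lemma it_nil (n : ℕ) : it σ n [] = [] := by
  induction n with
  | zero => rfl
  | succ n ih => rw [it_succ]; simpa using ih

lemma it_cons (n : ℕ) (c : A) (l : List A) : it σ n (c :: l) = it σ n [c] ++ it σ n l := by
  rw [← it_append]; rfl

lemma it_eq_flatMap (n : ℕ) (l : List A) : it σ n l = l.flatMap (fun c => it σ n [c]) := by
  induction l with
  | nil => simp [it_nil]
  | cons c l ih => rw [it_cons, ih]; simp

lemma it_infix (n : ℕ) {u v : List A} (h : u <:+: v) : it σ n u <:+: it σ n v := by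
  obtain ⟨s, t, rfl⟩ := h
  rw [it_append, it_append]
  exact List.infix_append _ _ _

lemma it_prefix (n : ℕ) {u v : List A} (h : u <+: v) : it σ n u <+: it σ n v := by
  obtain ⟨t, rfl⟩ := h
  rw [it_append]
  exact List.prefix_append _ _

lemma single_infix {c : A} {l : List A} (h : c ∈ l) : [c] <:+: l := by
  obtain ⟨s, t, rfl⟩ := List.append_of_mem h
  exact ⟨s, t, by simp⟩

lemma it_mem_infix (n : ℕ) {c : A} {l : List A} (h : c ∈ l) : it σ n [c] <:+: it σ n l :=
  it_infix n (single_infix h)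

lemma it_pow (N n : ℕ) (l : List A) : it (fun c => it σ N [c]) n l = it σ (N * n) l := by
  induction n with
  | zero => rfl
  | succ n ih => rw [it_succ', ih, ← it_eq_flatMap, ← it_add]; congr 1; ring

lemma it_rev (n : ℕ) (l : List A) :
    it (fun c => (σ c).reverse) n l.reverse = (it σ n l).reverse := by
  induction n with
  | zero => rfl
  | succ n ih => rw [it_succ', it_succ', ih, List.reverse_flatMap]; rfl

lemma it_rev_single (n : ℕ) (c : A) :
    it (fun c => (σ c).reverse) n [c] = (it σ n [c]).reverse := by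
  rw [← it_rev]; rfl

lemma length_flatMap_le {f : A → List B} {z : List A} {L : ℕ} (h : ∀ e ∈ z, (f e).length ≤ L) :
    (z.flatMap f).length ≤ z.length * L := by
  induction z with
  | nil => simp
  | cons c z ih =>
    have h1 := h c (by simp)
    have h2 := ih (fun e he => h e (by simp [he]))
    rw [List.flatMap_cons, List.length_append, List.length_cons]
    nlinarith

lemma prefix_flatMap {f : A → List B} : ∀ {z : List A} {p : List B}, p <+: z.flatMap f →
    p = [] ∨ ∃ z' d, z' ++ [d] <+: z ∧ ∃ p', p' <+: f d ∧ p = z'.flatMap f ++ p' := by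
  intro z
  induction z with
  | nil => intro p h; left; simpa using h
  | cons c z ih =>
    intro p h
    rw [List.flatMap_cons] at h
    right
    obtain ⟨t, ht⟩ := h
    rcases List.append_eq_append_iff.1 ht with ⟨as, h1, -⟩ | ⟨bs, h1, h2⟩
    · exact ⟨[], c, by simp, p, ⟨as, h1.symm⟩, by simp⟩
    · rcases ih ⟨t, h2.symm⟩ with h3 | ⟨z', d, h3, p', h4, h5⟩
      · exact ⟨[], c, by simp, f c, List.prefix_refl _, by simp [h1, h3]⟩
      · refine ⟨c :: z', d, ?_, p', h4, by simp [h1, h5]⟩
        simpa using h3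

lemma infix_flatMap {f : A → List B} : ∀ {z : List A} {u : List B}, u <:+: z.flatMap f →
    u = [] ∨ (∃ c ∈ z, u <:+: f c) ∨ ∃ c z' d, c :: z' ++ [d] <:+: z ∧
      ∃ s p, s <:+ f c ∧ p <+: f d ∧ u = s ++ z'.flatMap f ++ p := by
  intro z
  induction z with
  | nil => intro u h; left; simpa using h
  | cons c z ih =>
    intro u h
    rw [List.flatMap_cons] at h
    rcases List.infix_append_iff.1 h with h1 | h1 | ⟨s, p, h1, h2, h3⟩
    · exact Or.inr (Or.inl ⟨c, by simp, h1⟩)
    · rcases ih h1 with h2 | ⟨d, h2, h3⟩ | ⟨c', z', d, h2, h3⟩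
      · exact Or.inl h2
      · exact Or.inr (Or.inl ⟨d, by simp [h2], h3⟩)
      · exact Or.inr (Or.inr ⟨c', z', d, h2.trans (List.suffix_cons c z).isInfix, h3⟩)
    · rcases prefix_flatMap h3 with h4 | ⟨z', d, h4, p', h5, h6⟩
      · refine Or.inr (Or.inl ⟨c, by simp, ?_⟩)
        rw [h1, h4, List.append_nil]
        exact h2.isInfix
      · refine Or.inr (Or.inr ⟨c, z', d, ?_, s, p', h2, h5, by simp [h1, h6]⟩)
        apply List.IsPrefix.isInfix
        simpa using h4

lemma mid_infix {c d : A} {z' z : List A} (h : c :: z' ++ [d] <:+: z) : z' <:+: z :=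
  List.IsInfix.trans ⟨[c], [d], by simp⟩ h

lemma block_inside {f : A → List B} {G : A → Prop} {z : List A} {v : List B} {R L : ℕ}
    (hv : v <:+: z.flatMap f) (hR : ∀ u, u <:+: z → (∀ d ∈ u, ¬ G d) → u.length ≤ R)
    (hL : ∀ c ∈ z, (f c).length ≤ L) (hlen : (R + 2) * L < v.length) :
    ∃ g ∈ z, G g ∧ f g <:+: v := by
  rcases infix_flatMap hv with h | ⟨c, h1, h2⟩ | ⟨c, z', d, h1, s, p, h2, h3, h4⟩
  · subst h; simp at hlen
  · have := h2.length_le
    have := hL c h1
    nlinarith
  · have hz := mid_infix h1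
    by_contra hc
    push Not at hc
    have h5 : ∀ e ∈ z', ¬ G e := by
      intro e he hG
      apply hc e (hz.subset he) hG
      obtain ⟨l1, l2, rfl⟩ := List.append_of_mem he
      exact ⟨s ++ l1.flatMap f, l2.flatMap f ++ p, by simp [h4]⟩
    have h6 := hR z' hz h5
    have h7 := length_flatMap_le (f := f) (fun e he => hL e (hz.subset he))
    have h8 := h2.length_le
    have h9 := h3.length_le
    have h10 := hL c (h1.subset (by simp))
    have h11 := hL d (h1.subset (by simp))
    rw [h4, List.length_append, List.length_append] at hlen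
    nlinarith

lemma short_cover {f : A → List B} {G : A → Prop} {z : List A} {u : List B} {R : ℕ}
    (hu : u <:+: z.flatMap f) (hR : ∀ u, u <:+: z → (∀ d ∈ u, ¬ G d) → u.length ≤ R)
    (hL : ∀ g ∈ z, G g → u.length < (f g).length) :
    ∃ z'', z'' <:+: z ∧ z''.length ≤ R + 2 ∧ u <:+: z''.flatMap f := by
  rcases infix_flatMap hu with h | ⟨c, h1, h2⟩ | ⟨c, z', d, h1, s, p, h2, h3, h4⟩
  · exact ⟨[], List.nil_infix, by simp, by simp [h]⟩
  · exact ⟨[c], single_infix h1, by simp, by simpa using h2⟩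
  · have hz := mid_infix h1
    have h5 : ∀ e ∈ z', ¬ G e := by
      intro e he hG
      have h6 := hL e (hz.subset he) hG
      obtain ⟨l1, l2, rfl⟩ := List.append_of_mem he
      rw [h4] at h6
      simp at h6
      omega
    have h6 := hR z' hz h5
    refine ⟨_, h1, by simp; omega, ?_⟩
    obtain ⟨s', hs'⟩ := h2
    obtain ⟨p', hp'⟩ := h3
    refine ⟨s', p', ?_⟩
    rw [h4]
    simp [← hs', ← hp']

lemma evper {X : Type*} (x : ℕ → X) (hfin : (Set.range x).Finite)
    (hdet : ∀ i j, x i = x j → x (i + 1) = x (j + 1)) :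
    ∃ N, 0 < N ∧ ∀ n, 1 ≤ n → x (N * n) = x N := by
  have : ¬ Function.Injective x := fun h => Set.infinite_range_of_injective h hfin
  obtain ⟨i, j, hij, hlt⟩ : ∃ i j, x i = x j ∧ i < j := by
    simp only [Function.Injective, not_forall] at this
    obtain ⟨i, j, h1, h2⟩ := this
    rcases lt_or_gt_of_ne h2 with h | h
    · exact ⟨i, j, h1, h⟩
    · exact ⟨j, i, h1.symm, h⟩
  obtain ⟨p, rfl⟩ : ∃ p, j = i + (p + 1) := ⟨j - i - 1, by omega⟩
  have h1 : ∀ k, x (i + k) = x (i + (p + 1) + k) := by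
    intro k
    induction k with
    | zero => exact hij
    | succ k ih => exact hdet _ _ ih
  have h2 : ∀ t k, x (i + k + (p + 1) * t) = x (i + k) := by
    intro t k
    induction t with
    | zero => rfl
    | succ t ih =>
      rw [← ih, show i + k + (p + 1) * t = i + (k + (p + 1) * t) by ring, h1]
      congr 1; ring
  refine ⟨(p + 1) * (i + 1), by positivity, fun n hn => ?_⟩
  obtain ⟨m, rfl⟩ : ∃ m, n = m + 1 := ⟨n - 1, by omega⟩
  have := h2 ((i + 1) * m) (p * (i + 1) + 1)
  rw [show i + (p * (i + 1) + 1) = (p + 1) * (i + 1) by ring] at this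
  rw [← this]
  congr 1; ring

lemma pigeon2 {β : Type*} [Finite β] (P : ℕ → β → Prop)
    (mono : ∀ b M M', M ≤ M' → P M' b → P M b) (hne : ∀ M, ∃ b, P M b) :
    ∃ b, ∀ M, P M b := by
  by_contra hc
  push Not at hc
  choose Mt hMt using hc
  obtain ⟨B, hB⟩ := (Set.finite_range Mt).bddAbove
  obtain ⟨b, hb⟩ := hne B
  exact hMt b (mono b _ _ (hB ⟨b, rfl⟩) hb)

lemma find_flatMap {G : A → Bool} (h1 : ∀ c, G c = false → ∀ d ∈ σ c, G d = false)
    (h2 : ∀ c, G c = true → ∃ d ∈ σ c, G d = true) (l : List A) :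
    (l.flatMap σ).find? G = (l.find? G).bind (fun g => (σ g).find? G) := by
  induction l with
  | nil => simp
  | cons c l ih =>
    rw [List.flatMap_cons, List.find?_append, List.find?_cons]
    cases hc : G c with
    | false =>
      have : (σ c).find? G = none := by
        rw [List.find?_eq_none]
        intro d hd
        simp [h1 c hc d hd]
      simp [this, ih]
    | true =>
      obtain ⟨d, hd, hGd⟩ := h2 c hc
      have : ((σ c).find? G).isSome := by
        rw [List.find?_isSome]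
        exact ⟨d, hd, hGd⟩
      obtain ⟨e, he⟩ := Option.isSome_iff_exists.1 this
      simp [he]

end lists

section growth

variable {A : Type} [Fintype A] {σ : A → List A}

def Cst (σ : A → List A) : ℕ := 1 + ∑ c, (σ c).length

lemma le_Cst (c : A) : (σ c).length ≤ Cst σ := by
  have : (σ c).length ≤ ∑ c, (σ c).length :=
    Finset.single_le_sum (f := fun c => (σ c).length) (fun _ _ => Nat.zero_le _) (Finset.mem_univ c)
  unfold Cst
  omega

lemma one_le_Cst : 1 ≤ Cst σ := by unfold Cst; omega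

lemma len_succ_le (n : ℕ) (l : List A) : (it σ (n + 1) l).length ≤ (it σ n l).length * Cst σ := by
  rw [it_succ']
  exact length_flatMap_le (fun e _ => le_Cst e)

lemma len_add_le (n r : ℕ) (l : List A) :
    (it σ (n + r) l).length ≤ (it σ n l).length * Cst σ ^ r := by
  induction r with
  | zero => simp
  | succ r ih =>
    calc (it σ (n + r + 1) l).length ≤ (it σ (n + r) l).length * Cst σ := len_succ_le _ _
      _ ≤ (it σ n l).length * Cst σ ^ r * Cst σ := Nat.mul_le_mul_right _ ih
      _ = _ := by ring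

lemma len_le_pow (n : ℕ) (c : A) : (it σ n [c]).length ≤ Cst σ ^ n := by
  have := len_add_le (σ := σ) 0 n [c]
  simpa using this

def Bdd (σ : A → List A) (c : A) : Prop := ∃ B, ∀ n, (it σ n [c]).length ≤ B

omit [Fintype A] in
lemma bdd_of_mem {c d : A} (h : Bdd σ c) (hd : d ∈ σ c) : Bdd σ d := by
  obtain ⟨B, hB⟩ := h
  refine ⟨B, fun n => le_trans ?_ (hB (n + 1))⟩
  rw [it_succ_single]
  exact (it_mem_infix n hd).length_le

lemma bdd_unif : ∃ B, ∀ c, Bdd σ c → ∀ n, (it σ n [c]).length ≤ B := by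
  classical
  have : ∀ c, ∃ B, Bdd σ c → ∀ n, (it σ n [c]).length ≤ B := by
    intro c
    by_cases h : Bdd σ c
    · obtain ⟨B, hB⟩ := h
      exact ⟨B, fun _ => hB⟩
    · exact ⟨0, fun h' => absurd h' h⟩
  choose B hB using this
  refine ⟨∑ c, B c, fun c hc n => (hB c hc n).trans ?_⟩
  exact Finset.single_le_sum (f := B) (fun _ _ => Nat.zero_le _) (Finset.mem_univ c)

lemma bdd_of_all {c : A} (h : ∀ d ∈ σ c, Bdd σ d) : Bdd σ c := by
  obtain ⟨B, hB⟩ := bdd_unif (σ := σ)
  refine ⟨1 + (σ c).length * B, fun n => ?_⟩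
  cases n with
  | zero => simp
  | succ n =>
    rw [it_succ_single, it_eq_flatMap]
    have := length_flatMap_le (f := fun c => it σ n [c]) (fun e he => hB e (h e he) n)
    omega

omit [Fintype A] in
lemma bdd_of_mem_it {c : A} (h : Bdd σ c) : ∀ n d, d ∈ it σ n [c] → Bdd σ d := by
  intro n
  induction n with
  | zero => intro d hd; simp at hd; rwa [hd]
  | succ n ih =>
    intro d hd
    rw [it_succ', List.mem_flatMap] at hd
    obtain ⟨e, he, hd⟩ := hd
    exact bdd_of_mem (ih e he) hd

lemma bdd_of_all_it {c : A} : ∀ n, (∀ d ∈ it σ n [c], Bdd σ d) → Bdd σ c := by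
  intro n
  induction n with
  | zero => intro h; exact h c (by simp)
  | succ n ih =>
    intro h
    apply ih
    intro e he
    apply bdd_of_all
    intro d hd
    apply h
    rw [it_succ', List.mem_flatMap]
    exact ⟨e, he, hd⟩

/-- normal form of a morphism, with `G` marking the growing letters -/
structure Nrm (ρ : A → List A) (G : A → Bool) : Prop where
  h1 : ∀ c, G c = false → ∀ d ∈ ρ c, G d = false
  h2 : ∀ c, G c = true → ∃ d ∈ ρ c, G d = true
  hi : ∀ c, G c = false → ∀ n, 1 ≤ n → it ρ n [c] = ρ c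
  hii : ∀ c, (it ρ 2 [c]).find? G = (ρ c).find? G
  hiii : ∀ c, (it ρ 2 [c]).reverse.find? G = (ρ c).reverse.find? G
  hiv : ∀ c n, 1 ≤ n → ∀ d, d ∈ it ρ n [c] ↔ d ∈ ρ c
  hG : ∀ c, G c = true → ∀ L, ∃ n, L < (it ρ n [c]).length

theorem exists_nrm (σ : A → List A) :
    ∃ N, 0 < N ∧ ∃ G, Nrm (fun c => it σ N [c]) G := by
  classical
  let G : A → Bool := fun c => decide (¬ Bdd σ c)
  have hGt : ∀ c, G c = true ↔ ¬ Bdd σ c := by intro c; simp [G]
  have hGf : ∀ c, G c = false ↔ Bdd σ c := by intro c; simp [G]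
  have g1 : ∀ c, G c = false → ∀ d ∈ σ c, G d = false := fun c hc d hd =>
    (hGf d).2 (bdd_of_mem ((hGf c).1 hc) hd)
  have g2 : ∀ c, G c = true → ∃ d ∈ σ c, G d = true := by
    intro c hc
    by_contra h
    push Not at h
    apply (hGt c).1 hc
    apply bdd_of_all
    intro d hd
    have := h d hd
    rw [← hGf]
    simpa using this
  obtain ⟨B, hB⟩ := bdd_unif (σ := σ)
  let x1 : ℕ → A → List A := fun n c => if Bdd σ c then it σ n [c] else []
  let x2 : ℕ → A → Option A := fun n c => (it σ n [c]).find? G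
  let x3 : ℕ → A → Option A := fun n c => (it σ n [c]).reverse.find? G
  let x4 : ℕ → A → Finset A := fun n c => (it σ n [c]).toFinset
  have f1 : (Set.range x1).Finite := by
    apply (Set.Finite.pi' (fun _ : A => List.finite_length_le A B)).subset
    rintro _ ⟨n, rfl⟩ c
    simp only [x1, Set.mem_ofPred_eq]
    split_ifs with h
    · exact hB c h n
    · simp
  have hfin : (Set.range (fun n => (x1 n, x2 n, x3 n, x4 n))).Finite := by
    apply (f1.prod (Set.finite_univ (α := (A → Option A) × (A → Option A) × (A → Finset A)))).subset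
    rintro _ ⟨n, rfl⟩
    exact ⟨⟨n, rfl⟩, trivial⟩
  obtain ⟨N, hN, hx⟩ := evper _ hfin (by
    intro i j h
    simp only [Prod.mk.injEq] at h ⊢
    obtain ⟨a1, a2, a3, a4⟩ := h
    refine ⟨?_, ?_, ?_, ?_⟩ <;> funext c
    · have := congrFun a1 c
      simp only [x1] at this ⊢
      split_ifs with h
      · rw [if_pos h, if_pos h] at this
        rw [it_succ', it_succ', this]
      · rfl
    · have := congrFun a2 c
      simp only [x2] at this ⊢
      rw [it_succ', it_succ', find_flatMap g1 g2, find_flatMap g1 g2, this]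
    · have := congrFun a3 c
      simp only [x3] at this ⊢
      have k1 : ∀ c, G c = false → ∀ d ∈ (List.reverse ∘ σ) c, G d = false := by
        intro c hc d hd
        exact g1 c hc d (by simpa using hd)
      have k2 : ∀ c, G c = true → ∃ d ∈ (List.reverse ∘ σ) c, G d = true := by
        intro c hc
        obtain ⟨d, hd, h⟩ := g2 c hc
        exact ⟨d, by simpa using hd, h⟩
      rw [it_succ', it_succ', List.reverse_flatMap, List.reverse_flatMap, find_flatMap k1 k2,
        find_flatMap k1 k2, this]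
    · have := congrFun a4 c
      simp only [x4] at this ⊢
      ext d
      have h5 : ∀ e, e ∈ it σ i [c] ↔ e ∈ it σ j [c] := by
        intro e
        rw [← List.mem_toFinset, this, List.mem_toFinset]
      simp only [List.mem_toFinset, it_succ', List.mem_flatMap, h5])
  simp only [Prod.mk.injEq] at hx
  refine ⟨N, hN, G, ?_, ?_, ?_, ?_, ?_, ?_, ?_⟩
  · intro c hc d hd
    exact (hGf d).2 (bdd_of_mem_it ((hGf c).1 hc) N d hd)
  · intro c hc
    by_contra h
    push Not at h
    apply (hGt c).1 hc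
    apply bdd_of_all_it N
    intro d hd
    have := h d hd
    rw [← hGf]
    simpa using this
  · intro c hc n hn
    have := congrFun (hx n hn).1 c
    simp only [x1, if_pos ((hGf c).1 hc)] at this
    rw [it_pow, this]
  · intro c
    rw [it_pow]
    exact congrFun (hx 2 (by omega)).2.1 c
  · intro c
    rw [it_pow]
    exact congrFun (hx 2 (by omega)).2.2.1 c
  · intro c n hn d
    have := congrFun (hx n hn).2.2.2 c
    simp only [x4] at this
    rw [it_pow, ← List.mem_toFinset, this, List.mem_toFinset]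
  · intro c hc L
    by_contra h
    push Not at h
    apply (hGt c).1 hc
    refine ⟨L * Cst σ ^ N, fun n => ?_⟩
    have h1 := h (n / N)
    rw [it_pow] at h1
    have h2 := len_add_le (σ := σ) (N * (n / N)) (n % N) [c]
    rw [Nat.div_add_mod] at h2
    have h3 : Cst σ ^ (n % N) ≤ Cst σ ^ N :=
      Nat.pow_le_pow_right one_le_Cst (Nat.mod_lt _ hN).le
    exact h2.trans (Nat.mul_le_mul h1 h3)

def NoPow (ρ : A → List A) (c : A) : Prop :=
  ∀ u : List A, u ≠ [] → ∃ t, ∀ n, ¬ (List.replicate t u).flatten <:+: it ρ n [c]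

lemma prefix_bound {ρ : A → List A} {G : A → Bool}
    (h1 : ∀ c, G c = false → ∀ d ∈ ρ c, G d = false)
    (h2 : ∀ c, G c = true → ∃ d ∈ ρ c, G d = true)
    (hi : ∀ c, G c = false → ∀ n, 1 ≤ n → it ρ n [c] = ρ c)
    (hii : ∀ c, (it ρ 2 [c]).find? G = (ρ c).find? G) {c : A} (hp : NoPow ρ c)
    (n : ℕ) (p : List A) (hpre : p <+: it ρ n [c]) (hb : ∀ d ∈ p, G d = false) :
    p.length ≤ Cst ρ * Cst ρ + Cst ρ + 1 := by
  have hC := one_le_Cst (σ := ρ)
  have hl : ∀ l : List A, (∀ d ∈ l, G d = false) → ∀ m, it ρ (m + 1) l = l.flatMap ρ := by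
    intro l hl m
    rw [it_eq_flatMap]
    apply List.flatMap_congr
    intro d hd
    exact hi d (hl d hd) _ (by omega)
  rcases n with _ | _ | t
  · have := hpre.length_le
    simp at this
    omega
  · have := hpre.length_le
    have h3 := le_Cst (σ := ρ) c
    rw [zero_add, it_one] at this
    nlinarith
  cases hc : G c with
  | false =>
    have := hpre.length_le
    have h3 := le_Cst (σ := ρ) c
    rw [hi c hc _ (by omega)] at this
    nlinarith
  | true =>
    obtain ⟨d, hd, hGd⟩ := h2 c hc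
    have : ((ρ c).find? G).isSome := by
      rw [List.find?_isSome]
      exact ⟨d, hd, hGd⟩
    obtain ⟨g, hg⟩ := Option.isSome_iff_exists.1 this
    have hg' : (ρ g).find? G = some g := by
      have := hii c
      rw [it_succ', find_flatMap h1 h2, it_one, hg] at this
      simpa using this
    obtain ⟨hGg, L, R, e1, e2⟩ := List.find?_eq_some_iff_append.1 hg
    obtain ⟨-, L', R', e3, e4⟩ := List.find?_eq_some_iff_append.1 hg'
    have e2' : ∀ d ∈ L, G d = false := fun d hd => by simpa using e2 d hd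
    have e4' : ∀ d ∈ L', G d = false := fun d hd => by simpa using e4 d hd
    have key : ∀ s, (List.replicate s (L'.flatMap ρ)).flatten ++ L' ++ [g] <+: it ρ (s + 1) [g] := by
      intro s
      induction s with
      | zero => rw [zero_add, it_one, e3]; simp
      | succ s ih =>
        rw [it_succ_single, e3, it_append, it_cons, hl L' e4', List.replicate_succ,
          List.flatten_cons, List.append_assoc, List.append_assoc, List.prefix_append_right_inj,
          ← List.append_assoc]
        exact ih.trans (List.prefix_append _ _)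
    have hQ : L'.flatMap ρ = [] := by
      by_contra hQ
      obtain ⟨s, hs⟩ := hp _ hQ
      apply hs (s + 1 + 1)
      rw [it_succ_single]
      refine List.IsInfix.trans ?_ (it_mem_infix (c := g) _ (by rw [e1]; simp))
      refine List.IsInfix.trans ?_ (key s).isInfix
      rw [List.append_assoc]
      exact (List.prefix_append _ _).isInfix
    have k2 : L.flatMap ρ ++ L' ++ [g] <+: it ρ (t + 1 + 1) [c] := by
      have := key t
      rw [hQ] at this
      simp only [List.flatten_replicate_nil, List.nil_append] at this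
      rw [it_succ_single, e1, it_append, it_cons, hl L e2', List.append_assoc,
        List.prefix_append_right_inj]
      exact this.trans (List.prefix_append _ _)
    rcases List.prefix_or_prefix_of_prefix hpre k2 with h | h
    · have a1 := h.length_le
      have a2 := length_flatMap_le (f := ρ) (z := L) (fun e _ => le_Cst e)
      have a3 := le_Cst (σ := ρ) c
      have a4 := le_Cst (σ := ρ) g
      rw [e1] at a3
      rw [e3] at a4
      simp only [List.length_append, List.length_cons, List.length_nil] at a1 a3 a4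
      nlinarith
    · have := hb g (h.subset (by simp))
      rw [hGg] at this
      exact absurd this (by simp)

lemma suffix_bound {ρ : A → List A} {G : A → Bool} (hN : Nrm ρ G) {c : A} (hp : NoPow ρ c)
    (n : ℕ) (s : List A) (hs : s <:+ it ρ n [c]) (hb : ∀ d ∈ s, G d = false) :
    s.length ≤ Cst ρ * Cst ρ + Cst ρ + 1 := by
  have hC : Cst (fun c => (ρ c).reverse) = Cst ρ := by simp [Cst]
  rw [← hC, ← List.length_reverse]
  apply prefix_bound (ρ := fun c => (ρ c).reverse) (G := G) (c := c) (n := n)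
  · intro c hc d hd
    exact hN.h1 c hc d (by simpa using hd)
  · intro c hc
    obtain ⟨d, hd, h⟩ := hN.h2 c hc
    exact ⟨d, by simpa using hd, h⟩
  · intro c hc n hn
    rw [it_rev_single, hN.hi c hc n hn]
  · intro c
    rw [it_rev_single]
    exact hN.hiii c
  · intro u hu
    obtain ⟨t, ht⟩ := hp u.reverse (by simpa using hu)
    refine ⟨t, fun n h => ht n ?_⟩
    rw [it_rev_single] at h
    rw [← List.reverse_infix]
    simpa [List.reverse_flatten] using h
  · rw [it_rev_single, List.reverse_prefix]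
    exact hs
  · intro d hd
    exact hb d (by simpa using hd)

def Occ (ρ : A → List A) (a c : A) : Prop := ∃ m, c ∈ it ρ m [a]

omit [Fintype A] in
lemma Occ.step {ρ : A → List A} {a c d : A} (h : Occ ρ a c) (hd : d ∈ ρ c) : Occ ρ a d := by
  obtain ⟨m, hm⟩ := h
  exact ⟨m + 1, by rw [it_succ', List.mem_flatMap]; exact ⟨c, hm, hd⟩⟩

omit [Fintype A] in
lemma Occ.inside {ρ : A → List A} {a c : A} (h : Occ ρ a c) :
    ∃ m, ∀ n, it ρ n [c] <:+: it ρ (n + m) [a] := by
  obtain ⟨m, hm⟩ := h
  exact ⟨m, fun n => by rw [it_add]; exact it_mem_infix n hm⟩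

omit [Fintype A] in
lemma Occ.noPow {ρ : A → List A} {a c : A} (h : Occ ρ a c) (hp : NoPow ρ a) : NoPow ρ c := by
  obtain ⟨m, hm⟩ := h.inside
  intro u hu
  obtain ⟨t, ht⟩ := hp u hu
  exact ⟨t, fun n h => ht (n + m) (h.trans (hm n))⟩

theorem runs_bound {ρ : A → List A} {G : A → Bool} (hN : Nrm ρ G) {a : A} (hp : NoPow ρ a) :
    ∃ R, ∀ n c, Occ ρ a c → ∀ u, u <:+: it ρ n [c] → (∀ d ∈ u, ¬ G d = true) → u.length ≤ R := by
  set B := Cst ρ * Cst ρ + Cst ρ + 1 with hB
  refine ⟨(Cst ρ + 2) * B, fun n => ?_⟩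
  induction n with
  | zero =>
    intro c _ u hu _
    have := hu.length_le
    simp only [it_zero, List.length_cons, List.length_nil] at this
    nlinarith [Nat.zero_le (Cst ρ), Nat.zero_le (Cst ρ * Cst ρ)]
  | succ n ih =>
    intro c hc u hu hb
    rw [it_succ_single, it_eq_flatMap] at hu
    rcases infix_flatMap hu with h | ⟨d, h1, h2⟩ | ⟨c', z', d, h1, s, p, h2, h3, h4⟩
    · simp [h]
    · exact ih d (hc.step h1) u h2 hb
    · have hz := mid_infix h1
      have hb' : ∀ d ∈ u, G d = false := fun d hd => by simpa using hb d hd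
      have a1 := suffix_bound hN ((hc.step (h1.subset (by simp) : c' ∈ ρ c)).noPow hp) n s h2
        (fun d hd => hb' d (by simp [h4, hd]))
      have a2 := prefix_bound hN.h1 hN.h2 hN.hi hN.hii
        ((hc.step (h1.subset (by simp) : d ∈ ρ c)).noPow hp) n p h3
        (fun d hd => hb' d (by simp [h4, hd]))
      have a3 := length_flatMap_le (f := fun c => it ρ n [c]) (z := z') (L := B) (fun e he =>
        prefix_bound hN.h1 hN.h2 hN.hi hN.hii ((hc.step (hz.subset he)).noPow hp) n _
          (List.prefix_refl _) (fun d hd => hb' d (by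
            rw [h4]
            simp only [List.mem_append, List.mem_flatMap]
            exact Or.inl (Or.inr ⟨e, he, hd⟩))))
      have a4 := hz.length_le
      have a5 := le_Cst (σ := ρ) c
      rw [h4, List.length_append, List.length_append]
      nlinarith

def Bot (ρ : A → List A) (G : A → Bool) (b : A) : Prop :=
  G b = true ∧ b ∈ ρ b ∧ ∀ g ∈ ρ b, G g = true → b ∈ ρ g

omit [Fintype A] in
lemma Nrm.trans {ρ : A → List A} {G : A → Bool} (hN : Nrm ρ G) {c d e : A}
    (h1 : d ∈ ρ c) (h2 : e ∈ ρ d) : e ∈ ρ c := by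
  rw [← hN.hiv c 2 (by omega), it_succ', it_one, List.mem_flatMap]
  exact ⟨d, h1, h2⟩

omit [Fintype A] in
lemma exists_bot {ρ : A → List A} {G : A → Bool} (hN : Nrm ρ G) {g : A} (hg : G g = true) :
    ∃ b ∈ ρ g, Bot ρ G b := by
  classical
  have hex : ∃ k, ∃ g' ∈ ρ g, G g' = true ∧ (ρ g').toFinset.card = k := by
    obtain ⟨d, hd, h⟩ := hN.h2 g hg
    exact ⟨_, d, hd, h, rfl⟩
  obtain ⟨g', h1, h2, h3⟩ := Nat.find_spec hex
  have hall : ∀ h ∈ ρ g', G h = true → ∀ e ∈ ρ g', e ∈ ρ h := by
    intro h hh hGh e he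
    have k1 : Nat.find hex ≤ (ρ h).toFinset.card :=
      Nat.find_min' hex ⟨h, hN.trans h1 hh, hGh, rfl⟩
    have k2 : (ρ h).toFinset ⊆ (ρ g').toFinset := by
      intro x hx
      rw [List.mem_toFinset] at hx ⊢
      exact hN.trans hh hx
    have k3 := Finset.eq_of_subset_of_card_le k2 (by omega)
    rw [← List.mem_toFinset, k3, List.mem_toFinset]
    exact he
  obtain ⟨b, hb, hGb⟩ := hN.h2 g' h2
  exact ⟨b, hN.trans h1 hb, hGb, hall b hb hGb b hb,
    fun e he hGe => hall e (hN.trans hb he) hGe b hb⟩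

omit [Fintype A] in
lemma self_mono {ρ : A → List A} {b : A} (hb : b ∈ ρ b) {n n' : ℕ} (h : n ≤ n') :
    it ρ n [b] <:+: it ρ n' [b] := by
  obtain ⟨d, rfl⟩ := Nat.exists_eq_add_of_le h
  induction d with
  | zero => exact List.infix_refl _
  | succ d ih =>
    refine (ih (by omega)).trans ?_
    rw [← add_assoc, it_succ_single]
    exact it_mem_infix _ hb

theorem lin_rec {ρ : A → List A} {G : A → Bool} (hN : Nrm ρ G) {b : A} (hb : Bot ρ G b) {R : ℕ}
    (hR : ∀ n u, u <:+: it ρ n [b] → (∀ d ∈ u, ¬ G d = true) → u.length ≤ R) :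
    ∃ κ, ∀ u v n n', u <:+: it ρ n [b] → v <:+: it ρ n' [b] → 1 ≤ u.length →
      κ * u.length ≤ v.length → u <:+: v := by
  classical
  obtain ⟨hGb, hbb, hbg⟩ := hb
  set C := Cst ρ with hC
  have hC1 : 1 ≤ C := one_le_Cst
  have hmem : ∀ t c, c ∈ it ρ t [b] → c ∈ ρ b := by
    intro t c hc
    cases t with
    | zero => simp at hc; rw [hc]; exact hbb
    | succ t => exact (hN.hiv b _ (by omega) c).1 hc
  have hup : ∀ n c, c ∈ ρ b → (it ρ n [c]).length ≤ (it ρ n [b]).length * C := by
    intro n c hc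
    refine le_trans ?_ (len_succ_le n [b])
    rw [it_succ_single]
    exact (it_mem_infix n hc).length_le
  have hlow : ∀ n g, g ∈ ρ b → G g = true → (it ρ n [b]).length ≤ (it ρ n [g]).length * C := by
    intro n g hg hGg
    refine le_trans ?_ (len_succ_le n [g])
    rw [it_succ_single]
    exact (it_mem_infix n (hbg g hg hGg)).length_le
  obtain ⟨r, hr⟩ : ∃ r, ∀ z : List A, z.length ≤ R + 2 → (∃ t, z <:+: it ρ t [b]) →
      z <:+: it ρ r [b] := by
    have : ∀ z : List A, ∃ t, (∃ t, z <:+: it ρ t [b]) → z <:+: it ρ t [b] := by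
      intro z
      by_cases h : ∃ t, z <:+: it ρ t [b]
      · obtain ⟨t, ht⟩ := h
        exact ⟨t, fun _ => ht⟩
      · exact ⟨0, fun h' => absurd h' h⟩
    choose t ht using this
    obtain ⟨r, hr⟩ := ((List.finite_length_le A (R + 2)).image t).bddAbove
    exact ⟨r, fun z hz h => (ht z h).trans (self_mono hbb (hr ⟨z, hz, rfl⟩))⟩
  refine ⟨(R + 2) * C ^ (r + 4) + 1, fun u v n n' hu hv hu1 hκ => ?_⟩
  have hex := hN.hG b hGb (u.length * C)
  set m := Nat.find hex with hm
  have hm1 : u.length * C < (it ρ m [b]).length := Nat.find_spec hex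
  have hm2 : (it ρ m [b]).length ≤ u.length * C * C := by
    rcases Nat.eq_zero_or_pos m with h | h
    · rw [h] at hm1
      simp only [it_zero, List.length_cons, List.length_nil] at hm1
      nlinarith
    · have h1 := Nat.find_min hex (show m - 1 < Nat.find hex by omega)
      have h2 := len_succ_le (σ := ρ) (m - 1) [b]
      rw [show m - 1 + 1 = m by omega] at h2
      push Not at h1
      exact h2.trans (Nat.mul_le_mul_right _ h1)
  have hu' : u <:+: (it ρ n [b]).flatMap (fun c => it ρ m [c]) := by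
    rw [← it_eq_flatMap, ← it_add]
    exact hu.trans (self_mono hbb (by omega))
  obtain ⟨z, z1, z2, z3⟩ := short_cover (G := fun d => G d = true) hu' (hR n) (by
    intro g hg hGg
    have := hlow m g (hmem _ _ hg) hGg
    by_contra hc
    push Not at hc
    have := Nat.mul_le_mul_right C hc
    omega)
  have hv' : v <:+: (it ρ n' [b]).flatMap (fun c => it ρ (m + r + 1) [c]) := by
    rw [← it_eq_flatMap, ← it_add]
    exact hv.trans (self_mono hbb (by omega))
  obtain ⟨g, g1, g2, g3⟩ := block_inside (G := fun d => G d = true)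
    (L := u.length * C ^ (r + 4)) hv' (hR n') (by
      intro c hc
      have h1 := hup (m + r + 1) c (hmem _ _ hc)
      have h2 := len_add_le (σ := ρ) m (r + 1) [b]
      calc (it ρ (m + r + 1) [c]).length ≤ (it ρ (m + (r + 1)) [b]).length * C := h1
        _ ≤ (it ρ m [b]).length * C ^ (r + 1) * C := Nat.mul_le_mul_right _ h2
        _ ≤ u.length * C * C * C ^ (r + 1) * C :=
          Nat.mul_le_mul_right _ (Nat.mul_le_mul_right _ hm2)
        _ = u.length * C ^ (r + 4) := by ring) (by nlinarith)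
  refine List.IsInfix.trans ?_ g3
  rw [← it_eq_flatMap] at z3
  refine z3.trans ((it_infix m (hr z z2 ⟨n, z1⟩)).trans ?_)
  rw [← it_add, it_succ_single]
  exact it_mem_infix _ (hbg g (hmem _ _ g1) g2)

end growth

end Pool.Agent.MP_48844b_co

end

-- part MP_48844b_co.Morph
section

/-! A morphic presentation forces the expansion slope to be an algebraic integer. -/

namespace Pool.Agent.MP_48844b_co

open Finset

section segs

variable {B : Type}

def seg (w : ℕ → B) (x l : ℕ) : List B := (List.range l).map (fun i => w (x + i))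

variable {w : ℕ → B}

@[simp] lemma seg_length (x l : ℕ) : (seg w x l).length = l := by simp [seg]

lemma seg_get {x l i : ℕ} (h : i < l) : (seg w x l)[i]? = some (w (x + i)) := by
  simp [seg, h]

lemma seg_succ (x l : ℕ) : seg w x (l + 1) = seg w x l ++ [w (x + l)] := by
  simp [seg, List.range_succ]

lemma eq_seg {u : List B} {z : ℕ} (h : ∀ i, i < u.length → u[i]? = some (w (z + i))) :
    u = seg w z u.length := by
  apply List.ext_getElem?
  intro i
  by_cases hi : i < u.length
  · rw [h i hi, seg_get hi]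
  · rw [List.getElem?_eq_none (by omega), List.getElem?_eq_none (by simp; omega)]

lemma seg_infix {x l x' l' : ℕ} (h1 : x ≤ x') (h2 : x' + l' ≤ x + l) :
    seg w x' l' <:+: seg w x l := by
  rw [List.infix_iff_getElem?]
  refine ⟨x' - x, by simp; omega, fun i hi => ?_⟩
  have hi' : i < l' := by simpa using hi
  rw [seg_get (by omega), ← List.getElem?_eq_getElem, seg_get hi']
  congr 2
  omega

lemma infix_seg {u : List B} {x l : ℕ} (h : u <:+: seg w x l) :
    ∃ z, x ≤ z ∧ z + u.length ≤ x + l ∧ u = seg w z u.length := by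
  rw [List.infix_iff_getElem?] at h
  obtain ⟨k, h1, h2⟩ := h
  rw [seg_length] at h1
  refine ⟨x + k, by omega, by omega, eq_seg fun i hi => ?_⟩
  have := h2 i hi
  rw [seg_get (by omega), ← List.getElem?_eq_getElem] at this
  rw [← this]
  congr 2
  omega

lemma seg_map {B' : Type} (τ : B → B') (x l : ℕ) :
    (seg w x l).map τ = seg (fun n => τ (w n)) x l := by
  simp [seg]

end segs

lemma agree_of_seg {K : ℕ → ℕ} {x z l : ℕ} (h : seg K x l = seg K z l) : Agree K x z l := by
  intro i hi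
  have h1 := seg_get (w := K) (x := x) hi
  rw [h, seg_get hi] at h1
  exact (Option.some.inj h1).symm

variable {A : Type}

structure Fix (σ : A → List A) (a : A) (w : ℕ → A) : Prop where
  pre : ∀ n m x, (it σ n [a])[m]? = some x → w m = x
  grow : ∀ N, ∃ n, N < (it σ n [a]).length

variable {σ : A → List A} {a : A} {w : ℕ → A}

lemma Fix.eq_seg (h : Fix σ a w) (n : ℕ) : it σ n [a] = seg w 0 (it σ n [a]).length := by
  apply Pool.Agent.MP_48844b_co.eq_seg
  intro i hi
  rw [List.getElem?_eq_getElem hi, zero_add, h.pre n i _ (List.getElem?_eq_getElem hi)]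

lemma Fix.self_mem (h : Fix σ a w) : a ∈ σ a := by
  have h0 : w 0 = a := h.pre 0 0 a (by simp)
  cases hσ : σ a with
  | nil =>
    exfalso
    obtain ⟨n, hn⟩ := h.grow 1
    cases n with
    | zero => simp at hn
    | succ n => rw [it_succ_single, hσ, it_nil] at hn; simp at hn
  | cons c l =>
    have := h.pre 1 0 c (by rw [it_one, hσ]; simp)
    rw [← this, h0]
    simp

lemma Fix.seg_infix (h : Fix σ a w) (x l n0 : ℕ) : ∃ t, seg w x l <:+: it σ (n0 + t) [a] := by
  obtain ⟨n, hn⟩ := h.grow (x + l)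
  refine ⟨n, List.IsInfix.trans ?_ (self_mono h.self_mem (show n ≤ n0 + n by omega))⟩
  rw [h.eq_seg n]
  exact Pool.Agent.MP_48844b_co.seg_infix (by omega) (by omega)

lemma Fix.pow (h : Fix σ a w) {N : ℕ} (hN : 0 < N) : Fix (fun c => it σ N [c]) a w := by
  constructor
  · intro n m x hx
    rw [it_pow] at hx
    exact h.pre _ m x hx
  · intro L
    obtain ⟨n, hn⟩ := h.grow L
    refine ⟨n, ?_⟩
    rw [it_pow]
    exact lt_of_lt_of_le hn (self_mono h.self_mem (by nlinarith)).length_le

lemma Fix.factor (h : Fix σ a w) {u : List A} {n : ℕ} (hu : u <:+: it σ n [a]) :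
    ∃ z, u = seg w z u.length := by
  rw [h.eq_seg n] at hu
  obtain ⟨z, -, -, hz⟩ := infix_seg hu
  exact ⟨z, hz⟩

lemma Fix.noPow {K : ℕ → ℕ} (hK : IsKol K) (h : Fix σ a w) {τ : A → ℕ}
    (hτ : ∀ n, K n = τ (w n)) : NoPow σ a := by
  intro u hu
  have hp : 1 ≤ u.length := List.length_pos_iff.2 hu
  obtain ⟨L, hL⟩ := hK.no_period u.length
  refine ⟨L + 1, fun n hn => ?_⟩
  obtain ⟨z, hz⟩ := h.factor hn
  apply hL u.length hp le_rfl z
  intro i hi
  have e0 : ((List.replicate L u).flatten).length = L * u.length := by simp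
  have e1 : (List.replicate (L + 1) u).flatten = u ++ (List.replicate L u).flatten := by
    rw [List.replicate_succ, List.flatten_cons]
  have e2 : (List.replicate (L + 1) u).flatten = (List.replicate L u).flatten ++ u := by
    rw [List.replicate_succ']; simp
  have hi' : i < L * u.length := by nlinarith
  have e3 : ((List.replicate (L + 1) u).flatten).length = u.length + L * u.length := by
    rw [e1, List.length_append, e0]
  have g1 : ((List.replicate (L + 1) u).flatten)[i]? = ((List.replicate L u).flatten)[i]? := by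
    rw [e2, List.getElem?_append_left (by omega)]
  have g2 : ((List.replicate (L + 1) u).flatten)[u.length + i]? =
      ((List.replicate L u).flatten)[i]? := by
    rw [e1, List.getElem?_append_right (by omega), Nat.add_sub_cancel_left]
  rw [← g1, hz, seg_get (by omega), seg_get (by omega)] at g2
  rw [hτ, hτ, add_assoc, Option.some.inj g2]

def goodB (K : ℕ → ℕ) (ρ : A → List A) (τ : A → ℕ) (b : A) (x y : ℕ) : Prop :=
  ∃ n, seg K x (y - x) <:+: (it ρ n [b]).map τ

lemma goodB_sub {K : ℕ → ℕ} {ρ : A → List A} {τ : A → ℕ} {b : A} : Sub (goodB K ρ τ b) := by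
  rintro x y x' y' ⟨n, hn⟩ h1 h2
  refine ⟨n, List.IsInfix.trans ?_ hn⟩
  by_cases h : x' ≤ y'
  · exact seg_infix h1 (by omega)
  · rw [show y' - x' = 0 by omega]
    exact List.nil_infix

theorem integral_of_morphic [Fintype A] {K : ℕ → ℕ} (hK : IsKol K) (h : Fix σ a w) {τ : A → ℕ}
    (hτ : ∀ n, K n = τ (w n)) (μ : ℝ)
    (hμ : ∀ ε > 0, ∃ D : ℝ, ∀ x y : ℕ, x ≤ y →
      |((S K y : ℝ) - S K x) - μ * ((y : ℝ) - x)| ≤ ε * ((y : ℝ) - x) + D) :
    IsIntegral ℤ μ := by
  classical
  obtain ⟨N, hN0, G, hN⟩ := exists_nrm σ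
  set ρ : A → List A := fun c => it σ N [c] with hρ
  have hF : Fix ρ a w := h.pow hN0
  have hKw : (fun n => τ (w n)) = K := by funext n; rw [hτ]
  have hseg : ∀ x l, (seg w x l).map τ = seg K x l := by
    intro x l; rw [seg_map, hKw]
  obtain ⟨R, hR⟩ := runs_bound hN (hF.noPow hK hτ)
  have hocc : Occ ρ a a := ⟨0, by simp⟩
  have hGa : G a = true := by
    by_contra hc
    have hc' : G a = false := by simpa using hc
    obtain ⟨n, hn⟩ := hF.grow (Cst ρ)
    have h1 := one_le_Cst (σ := ρ)
    have h2 := le_Cst (σ := ρ) a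
    cases n with
    | zero => simp at hn; omega
    | succ n => rw [hN.hi a hc' _ (by omega)] at hn; omega
  have hlong : ∀ b, Bot ρ G b → Occ ρ a b → Long (goodB K ρ τ b) := by
    intro b hb ho L
    obtain ⟨n, hn⟩ := hN.hG b hb.1 L
    obtain ⟨m, hm⟩ := ho.inside
    obtain ⟨z, hz⟩ := hF.factor (hm n)
    refine ⟨z, n, ?_⟩
    rw [hz, hseg]
    exact seg_infix le_rfl (by omega)
  have hrec : ∀ b, Bot ρ G b → Occ ρ a b → ∃ κ, LinRec K (goodB K ρ τ b) κ := by
    intro b hb ho
    obtain ⟨κ, hκ⟩ := lin_rec hN hb (fun n => hR n b ho)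
    refine ⟨κ, ?_⟩
    rintro x l x' l' ⟨n, h1⟩ ⟨n', h2⟩ h3 h4
    rw [Nat.add_sub_cancel_left] at h1 h2
    obtain ⟨u, u1, u2⟩ := List.infix_map_iff.1 h1
    obtain ⟨v, v1, v2⟩ := List.infix_map_iff.1 h2
    have u3 : u.length = l := by have := congrArg List.length u2; simpa using this.symm
    have v3 : v.length = l' := by have := congrArg List.length v2; simpa using this.symm
    have h5 := (hκ u v n n' u1 v1 (by omega) (by rw [u3, v3]; exact h4)).map τ
    rw [← u2, ← v2] at h5
    obtain ⟨z, z1, z2, z3⟩ := infix_seg h5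
    rw [seg_length] at z2 z3
    exact ⟨z, z1, z2, agree_of_seg z3⟩
  let β := {b : A // Bot ρ G b ∧ Occ ρ a b}
  have hrel : ∀ b : β, ∃ b' : β, ∀ x l, goodB K ρ τ b'.1 x (x + l) →
      ∃ x', Agree K x x' l ∧ goodB K ρ τ b.1 (S K x') (S K (x' + l)) := by
    intro b
    obtain ⟨b', hb'⟩ := pigeon2 (fun n (b' : β) => ∃ a0 r,
        goodB K ρ τ b.1 (S K a0) (S K (a0 + r)) ∧ it ρ n [b'.1] <:+: seg w a0 r)
      (by
        rintro b' M M' hM ⟨a0, r, h1, h2⟩
        exact ⟨a0, r, h1, (self_mono b'.2.1.2.1 hM).trans h2⟩)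
      (by
        intro n
        obtain ⟨a0, ha0⟩ := exists_window hK goodB_sub (hlong b.1 b.2.1 b.2.2) 1
          ((R + 2) * Cst ρ ^ (n + 1) + 1)
        obtain ⟨t, ht⟩ := hF.seg_infix a0 ((R + 2) * Cst ρ ^ (n + 1) + 1) (n + 1)
        rw [it_add, it_eq_flatMap] at ht
        obtain ⟨g, g1, g2, g3⟩ := block_inside (G := fun d => G d = true)
          (L := Cst ρ ^ (n + 1)) ht (hR t a hocc) (fun c _ => len_le_pow _ c) (by simp)
        obtain ⟨b', k1, k2⟩ := exists_bot hN g2
        refine ⟨⟨b', k2, Occ.step ⟨t, g1⟩ k1⟩, a0, _, ha0, List.IsInfix.trans ?_ g3⟩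
        rw [it_succ_single]
        exact it_mem_infix _ k1)
    refine ⟨b', ?_⟩
    rintro x l ⟨n, hn⟩
    obtain ⟨a0, r, h1, h2⟩ := hb' n
    rw [Nat.add_sub_cancel_left] at hn
    have h3 := hn.trans (h2.map τ)
    rw [hseg] at h3
    obtain ⟨z, z1, z2, z3⟩ := infix_seg h3
    rw [seg_length] at z2 z3
    exact ⟨z, agree_of_seg z3,
      goodB_sub _ _ _ _ h1 (hK.strictMono.monotone z1) (hK.strictMono.monotone z2)⟩
  choose f hf using hrel
  obtain ⟨b0, hb0, hb0'⟩ := exists_bot hN hGa
  obtain ⟨p, hp0, hp⟩ := evper (fun i => f^[i] ⟨b0, hb0', hocc.step hb0⟩) (Set.toFinite _) (by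
    intro i j hij
    simp only [Function.iterate_succ_apply'] at hij ⊢
    rw [hij])
  let P : β → Prop := fun b => ∃ m, f^[m + 1] b = b
  have hP : ∃ b, P b := by
    refine ⟨f^[p] ⟨b0, hb0', hocc.step hb0⟩, p - 1, ?_⟩
    have := hp 2 (by omega)
    rw [← Function.iterate_add_apply, show p - 1 + 1 + p = p * 2 by omega]
    exact this
  let good : ℕ → ℕ → Prop := fun x y => ∃ b : β, P b ∧ goodB K ρ τ b.1 x y
  have hs : Sub good := by
    rintro x y x' y' ⟨b, h1, h2⟩ h3 h4
    exact ⟨b, h1, goodB_sub _ _ _ _ h2 h3 h4⟩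
  have hl : Long good := by
    intro L
    obtain ⟨b, hb⟩ := hP
    obtain ⟨x, hx⟩ := hlong b.1 b.2.1 b.2.2 L
    exact ⟨x, b, hb, hx⟩
  have hc : Cyc K good := by
    rintro x l ⟨b', ⟨m, hm⟩, h2⟩
    have e1 : f (f^[m] b') = b' := by rw [← Function.iterate_succ_apply' f]; exact hm
    rw [← e1] at h2
    obtain ⟨x', h3, h4⟩ := hf _ x l h2
    refine ⟨x', h3, f^[m] b', ⟨m, ?_⟩, h4⟩
    rw [← Function.iterate_add_apply, add_comm, Function.iterate_add_apply, hm]
  choose κ hκ using fun b : β => hrec b.1 b.2.1 b.2.2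
  apply integral_slope hK hs hl hc (C := ∑ b : β, (81 * κ b ^ 2 + 9)) _ μ hμ
  intro j
  have hsub : T K good j ⊆ Finset.univ.biUnion (fun b : β => T K (goodB K ρ τ b.1) j) := by
    intro t ht
    rw [mem_T] at ht
    obtain ⟨b, hb⟩ := pigeon2 (fun M (b : β) => ∃ n, Deep K (goodB K ρ τ b.1) j n M ∧
        ty K j n = t)
      (by
        rintro b M M' hM ⟨n, h1, h2⟩
        exact ⟨n, h1.mono hK goodB_sub hM, h2⟩)
      (by
        intro M
        obtain ⟨n, ⟨h1, b, -, h2⟩, h3⟩ := ht M
        exact ⟨b, n, ⟨h1, h2⟩, h3⟩)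
    exact Finset.mem_biUnion.2 ⟨b, Finset.mem_univ _, mem_T.2 hb⟩
  refine (Finset.card_le_card hsub).trans (Finset.card_biUnion_le.trans ?_)
  exact Finset.sum_le_sum fun b _ => card_T_le hK goodB_sub (hlong b.1 b.2.1 b.2.2) (hκ b) j

end Pool.Agent.MP_48844b_co

end

-- part MP_48844b_co.Prim
section

/-! Letter frequencies: uniform frequency, primitive morphisms, uniform morphisms. -/

namespace Pool.Agent.MP_48844b_co

open Finset Filter Topology

def cnt (K : ℕ → ℕ) (x n : ℕ) : ℕ := ((Finset.range n).filter (fun i => K (x + i) = 1)).card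

def UF (K : ℕ → ℕ) (α : ℝ) : Prop :=
  ∀ ε > 0, ∃ N : ℕ, ∀ x n : ℕ, N ≤ n → |(cnt K x n : ℝ) / n - α| ≤ ε

variable {K : ℕ → ℕ}

lemma cnt_succ (x n : ℕ) : cnt K x (n + 1) = cnt K x n + if K (x + n) = 1 then 1 else 0 := by
  unfold cnt
  rw [Finset.range_add_one, Finset.filter_insert]
  split_ifs with h
  · rw [Finset.card_insert_of_notMem (by simp)]
  · rfl

lemma cnt_le (x n : ℕ) : cnt K x n ≤ n := by
  unfold cnt
  exact (Finset.card_filter_le _ _).trans (by simp)

lemma S_cnt (hK : IsKol K) (x n : ℕ) : S K (x + n) + cnt K x n = S K x + 2 * n := by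
  induction n with
  | zero => simp [cnt]
  | succ n ih =>
    rw [cnt_succ, ← add_assoc x, S_succ]
    rcases hK.h12 (x + n) with h | h <;> simp [h] <;> omega

lemma cnt_three (hK : IsKol K) (n : ℕ) : n ≤ cnt K 0 (3 * n) ∧ cnt K 0 (3 * n) ≤ 2 * n := by
  have : 4 * n ≤ S K (3 * n) ∧ S K (3 * n) ≤ 5 * n := by
    induction n with
    | zero => simp [S]
    | succ n ih =>
      have h1 := hK.three_ge (3 * n)
      have h2 := hK.three_le (3 * n)
      rw [show 3 * (n + 1) = 3 * n + 3 by ring]
      omega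
  have h := S_cnt hK 0 (3 * n)
  rw [zero_add, S_zero] at h
  omega

lemma UF.linear {α : ℝ} (h : UF K α) : ∀ ε > 0, ∃ D : ℝ, ∀ x n : ℕ,
    |(cnt K x n : ℝ) - α * n| ≤ ε * n + D := by
  intro ε hε
  obtain ⟨N, hN⟩ := h ε hε
  refine ⟨(1 + |α|) * N, fun x n => ?_⟩
  have hn0 : (0 : ℝ) ≤ n := Nat.cast_nonneg n
  have hD : 0 ≤ (1 + |α|) * N := by positivity
  by_cases hn : N + 1 ≤ n
  · have h1 := hN x n (by omega)
    have hpos : (0 : ℝ) < n := by exact_mod_cast (show 0 < n by omega)
    rw [show (cnt K x n : ℝ) / n - α = ((cnt K x n : ℝ) - α * n) / n by field_simp, abs_div,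
      abs_of_pos hpos, div_le_iff₀ hpos] at h1
    linarith
  · have h1 : (cnt K x n : ℝ) ≤ n := by exact_mod_cast cnt_le x n
    have h2 : (n : ℝ) ≤ N := by exact_mod_cast (show n ≤ N by omega)
    have h3 : |(cnt K x n : ℝ) - α * n| ≤ (1 + |α|) * n := by
      refine (abs_sub _ _).trans ?_
      rw [abs_mul, abs_of_nonneg hn0, abs_of_nonneg (Nat.cast_nonneg _)]
      linarith
    have h4 : (1 + |α|) * n ≤ (1 + |α|) * N := by gcongr
    have : 0 ≤ ε * n := by positivity
    linarith

lemma UF.of_linear {α : ℝ} (h : ∀ ε > 0, ∃ D : ℝ, ∀ x n : ℕ,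
    |(cnt K x n : ℝ) - α * n| ≤ ε * n + D) : UF K α := by
  intro ε hε
  obtain ⟨D, hD⟩ := h (ε / 2) (by positivity)
  obtain ⟨N, hN⟩ := exists_nat_gt (2 * D / ε)
  refine ⟨N + 1, fun x n hn => ?_⟩
  have hpos : (0 : ℝ) < n := by exact_mod_cast (show 0 < n by omega)
  have h2 : (N : ℝ) ≤ n := by exact_mod_cast (show N ≤ n by omega)
  have h3 : 2 * D < N * ε := by rwa [div_lt_iff₀ hε] at hN
  rw [show (cnt K x n : ℝ) / n - α = ((cnt K x n : ℝ) - α * n) / n by field_simp, abs_div,
    abs_of_pos hpos, div_le_iff₀ hpos]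
  have := hD x n
  nlinarith

lemma UF.tendsto {α : ℝ} (h : UF K α) {x n : ℕ → ℕ} (hn : Tendsto n atTop atTop) :
    Tendsto (fun i => (cnt K (x i) (n i) : ℝ) / (n i)) atTop (𝓝 α) := by
  rw [Metric.tendsto_nhds]
  intro ε hε
  obtain ⟨N, hN⟩ := h (ε / 2) (by positivity)
  filter_upwards [hn.eventually (eventually_ge_atTop N)] with i hi
  rw [Real.dist_eq]
  have := hN (x i) (n i) hi
  linarith

lemma UF.bounds (hK : IsKol K) {α : ℝ} (h : UF K α) : 1 / 3 ≤ α ∧ α ≤ 2 / 3 := by
  have ht := h.tendsto (x := fun _ => 0) (n := fun i => 3 * i)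
    (tendsto_id.const_mul_atTop' (by norm_num))
  constructor
  · apply ge_of_tendsto ht
    filter_upwards [eventually_ge_atTop 1] with i hi
    have h1 : (i : ℝ) ≤ cnt K 0 (3 * i) := by exact_mod_cast (cnt_three hK i).1
    have hpos : (0 : ℝ) < i := by exact_mod_cast (show 0 < i by omega)
    rw [le_div_iff₀ (by push_cast; positivity)]
    push_cast
    linarith
  · apply le_of_tendsto ht
    filter_upwards [eventually_ge_atTop 1] with i hi
    have h1 : (cnt K 0 (3 * i) : ℝ) ≤ 2 * i := by exact_mod_cast (cnt_three hK i).2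
    have hpos : (0 : ℝ) < i := by exact_mod_cast (show 0 < i by omega)
    rw [div_le_iff₀ (by push_cast; positivity)]
    push_cast
    linarith

variable {A : Type} {σ : A → List A} {a : A} {w : ℕ → A} {τ : A → ℕ}

theorem uf_integral [Fintype A] (hK : IsKol K) (h : Fix σ a w) (hτ : ∀ n, K n = τ (w n)) {α : ℝ}
    (hα : UF K α) : IsIntegral ℤ α ∧ Irrational α := by
  have h1 : IsIntegral ℤ (2 - α) := by
    apply integral_of_morphic hK h hτ
    intro ε hε
    obtain ⟨D, hD⟩ := hα.linear ε hε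
    refine ⟨D, fun x y hxy => ?_⟩
    obtain ⟨n, rfl⟩ := Nat.exists_eq_add_of_le hxy
    have e1 : (S K (x + n) : ℝ) + cnt K x n = S K x + 2 * n := by exact_mod_cast S_cnt hK x n
    have := hD x n
    push_cast
    rw [show (x : ℝ) + n - x = n by ring, show (S K (x + n) : ℝ) - S K x - (2 - α) * n =
      -((cnt K x n : ℝ) - α * n) by linarith, abs_neg]
    exact this
  have h2 : IsIntegral ℤ α := by
    have h3 : IsIntegral ℤ (2 : ℝ) := by
      have := isIntegral_algebraMap (R := ℤ) (A := ℝ) (x := 2)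
      simpa using this
    have := h3.sub h1
    simpa using this
  refine ⟨h2, ?_⟩
  rintro ⟨q, rfl⟩
  have h3 : IsIntegral ℤ q := by
    have : ((q : ℚ) : ℝ) = algebraMap ℚ ℝ q := rfl
    rw [this] at h2
    exact (isIntegral_algebraMap_iff (algebraMap ℚ ℝ).injective).1 h2
  obtain ⟨z, hz⟩ := IsIntegrallyClosed.isIntegral_iff.1 h3
  obtain ⟨b1, b2⟩ := hα.bounds hK
  rw [← hz] at b1 b2
  simp only [eq_intCast, Rat.cast_intCast] at b1 b2
  have c1 : (0 : ℝ) < z := by linarith
  have c2 : (z : ℝ) < 1 := by linarith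
  have d1 : 0 < z := by exact_mod_cast c1
  have d2 : z < 1 := by exact_mod_cast c2
  omega

def c1 (τ : A → ℕ) (l : List A) : ℕ := l.countP (fun c => τ c = 1)

lemma c1_append (l l' : List A) : c1 τ (l ++ l') = c1 τ l + c1 τ l' := by
  simp [c1]

lemma c1_le (l : List A) : c1 τ l ≤ l.length := List.countP_le_length

lemma c1_seg (hτ : ∀ n, K n = τ (w n)) (x n : ℕ) : c1 τ (seg w x n) = cnt K x n := by
  induction n with
  | zero => simp [c1, cnt, seg]
  | succ n ih =>
    rw [seg_succ, c1_append, cnt_succ, ih, hτ]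
    by_cases h : τ (w (x + n)) = 1 <;> simp [c1, h]

noncomputable def phi (τ : A → ℕ) (α : ℝ) (l : List A) : ℝ := (c1 τ l : ℝ) - α * l.length

lemma phi_append (α : ℝ) (l l' : List A) : phi τ α (l ++ l') = phi τ α l + phi τ α l' := by
  simp only [phi, c1_append, List.length_append]
  push_cast
  ring

lemma phi_nil (α : ℝ) : phi τ α [] = 0 := by simp [phi, c1]

lemma phi_flatMap_nonneg {α : ℝ} {f : A → List A} (h : ∀ c, 0 ≤ phi τ α (f c)) (z : List A) :
    0 ≤ phi τ α (z.flatMap f) := by
  induction z with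
  | nil => simp [phi_nil]
  | cons c z ih => rw [List.flatMap_cons, phi_append]; have := h c; linarith

lemma phi_flatMap_nonpos {α : ℝ} {f : A → List A} (h : ∀ c, phi τ α (f c) ≤ 0) (z : List A) :
    phi τ α (z.flatMap f) ≤ 0 := by
  induction z with
  | nil => simp [phi_nil]
  | cons c z ih => rw [List.flatMap_cons, phi_append]; have := h c; linarith

lemma phi_abs (α : ℝ) (l : List A) : |phi τ α l| ≤ (1 + |α|) * l.length := by
  have h1 : (c1 τ l : ℝ) ≤ l.length := by exact_mod_cast c1_le l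
  unfold phi
  refine (abs_sub _ _).trans ?_
  rw [abs_mul, Nat.abs_cast, Nat.abs_cast]
  linarith

theorem uf_of_primitive [Fintype A] (h : Fix σ a w) (hτ : ∀ n, K n = τ (w n)) {r : ℕ}
    (hr : ∀ b c, c ∈ it σ r [b]) : ∃ α, UF K α := by
  set C := Cst σ with hC
  have hC1 : (1 : ℝ) ≤ C := by exact_mod_cast one_le_Cst (σ := σ)
  have hapos : ∀ n, (0 : ℝ) < (it σ n [a]).length := by
    intro n
    have := (self_mono h.self_mem (Nat.zero_le n)).length_le
    simp only [it_zero, List.length_cons, List.length_nil] at this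
    exact_mod_cast (show 0 < (it σ n [a]).length by omega)
  set δ : ℝ := 1 / (C : ℝ) ^ (2 * r) with hδ
  have hCp : (1 : ℝ) ≤ (C : ℝ) ^ (2 * r) := one_le_pow₀ hC1
  have hδ0 : 0 < δ := by positivity
  have hδ1 : δ ≤ 1 := by rw [hδ, div_le_one (by positivity)]; exact hCp
  have hw : ∀ n b, δ * (it σ (n + r) [b]).length ≤ (it σ n [a]).length := by
    intro n b
    have h1 := len_add_le (σ := σ) n r [b]
    have h2 : (it σ n [b]).length ≤ (it σ (n + r) [a]).length := by
      rw [it_add]; exact (it_mem_infix n (hr a b)).length_le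
    have h3 := len_add_le (σ := σ) n r [a]
    have h4 : (it σ (n + r) [b]).length ≤ (it σ n [a]).length * C ^ (2 * r) := by
      calc _ ≤ (it σ n [b]).length * C ^ r := h1
        _ ≤ (it σ n [a]).length * C ^ r * C ^ r := Nat.mul_le_mul_right _ (h2.trans h3)
        _ = _ := by ring
    have h5 : ((it σ (n + r) [b]).length : ℝ) ≤ (it σ n [a]).length * (C : ℝ) ^ (2 * r) := by
      exact_mod_cast h4
    rw [hδ, one_div, inv_mul_le_iff₀ (by positivity)]
    linarith
  have hstep : ∀ t : ℕ, ∃ n : ℕ, ∃ lo hi : ℝ, (∀ b, 0 ≤ phi τ lo (it σ n [b])) ∧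
      (∀ b, phi τ hi (it σ n [b]) ≤ 0) ∧ hi - lo = (1 - δ) ^ t := by
    intro t
    induction t with
    | zero =>
      refine ⟨0, 0, 1, fun b => by simp [phi], fun b => ?_, by simp⟩
      have : (c1 τ (it σ 0 [b]) : ℝ) ≤ (it σ 0 [b]).length := by exact_mod_cast c1_le _
      unfold phi
      linarith
    | succ t ih =>
      obtain ⟨n, lo, hi, h1, h2, h3⟩ := ih
      set m : ℝ := (c1 τ (it σ n [a]) : ℝ) / (it σ n [a]).length with hm
      have hm' : (c1 τ (it σ n [a]) : ℝ) = m * (it σ n [a]).length := by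
        rw [hm, div_mul_cancel₀ _ (hapos n).ne']
      have m1 : lo ≤ m := by
        have := h1 a
        unfold phi at this
        rw [hm, le_div_iff₀ (hapos n)]
        linarith
      have m2 : m ≤ hi := by
        have := h2 a
        unfold phi at this
        rw [hm, div_le_iff₀ (hapos n)]
        linarith
      refine ⟨n + r, lo + δ * (m - lo), hi - δ * (hi - m), fun b => ?_, fun b => ?_,
        by rw [pow_succ, ← h3]; ring⟩
      · obtain ⟨s, s', hs⟩ := List.append_of_mem (hr b a)
        have e1 : phi τ lo (it σ (n + r) [b]) = phi τ lo (it σ n s) + phi τ lo (it σ n [a]) +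
            phi τ lo (it σ n s') := by
          rw [it_add, hs, it_append, it_cons, phi_append, phi_append]; ring
        have e2 := phi_flatMap_nonneg h1 s
        have e3 := phi_flatMap_nonneg h1 s'
        rw [← it_eq_flatMap] at e2 e3
        have e4 := hw n b
        have e5 := mul_le_mul_of_nonneg_left e4 (sub_nonneg.2 m1)
        unfold phi at e1 e2 e3 ⊢
        nlinarith
      · obtain ⟨s, s', hs⟩ := List.append_of_mem (hr b a)
        have e1 : phi τ hi (it σ (n + r) [b]) = phi τ hi (it σ n s) + phi τ hi (it σ n [a]) +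
            phi τ hi (it σ n s') := by
          rw [it_add, hs, it_append, it_cons, phi_append, phi_append]; ring
        have e2 := phi_flatMap_nonpos h2 s
        have e3 := phi_flatMap_nonpos h2 s'
        rw [← it_eq_flatMap] at e2 e3
        have e4 := hw n b
        have e5 := mul_le_mul_of_nonneg_left e4 (sub_nonneg.2 m2)
        unfold phi at e1 e2 e3 ⊢
        nlinarith
  let Lo : Set ℝ := {lo | ∃ n, ∀ b, 0 ≤ phi τ lo (it σ n [b])}
  have hub : ∀ n hi, (∀ b, phi τ hi (it σ n [b]) ≤ 0) → hi ∈ upperBounds Lo := by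
    rintro n hi h2 lo ⟨n', h1⟩
    have e1 := phi_flatMap_nonneg h1 (it σ n [a])
    have e2 := phi_flatMap_nonpos h2 (it σ n' [a])
    rw [← it_eq_flatMap, ← it_add] at e1 e2
    rw [add_comm] at e2
    have e3 := hapos (n' + n)
    unfold phi at e1 e2
    by_contra hc
    push Not at hc
    nlinarith
  refine ⟨sSup Lo, UF.of_linear fun ε hε => ?_⟩
  obtain ⟨t, ht⟩ := exists_pow_lt_of_lt_one hε (show 1 - δ < 1 by linarith)
  obtain ⟨n, lo, hi, h1, h2, h3⟩ := hstep t
  have a1 : lo ≤ sSup Lo := le_csSup ⟨hi, hub n hi h2⟩ ⟨n, h1⟩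
  have a2 : sSup Lo ≤ hi := csSup_le ⟨lo, n, h1⟩ (hub n hi h2)
  set α := sSup Lo
  have hz : ∀ z : List A, |phi τ α (it σ n z)| ≤ ε * (it σ n z).length := by
    intro z
    have e2 := phi_flatMap_nonneg h1 z
    have e3 := phi_flatMap_nonpos h2 z
    rw [← it_eq_flatMap] at e2 e3
    have e4 : (0 : ℝ) ≤ (it σ n z).length := Nat.cast_nonneg _
    unfold phi at e2 e3 ⊢
    rw [abs_le]
    constructor <;> nlinarith
  have hsh : ∀ (u : List A) c, u <:+: it σ n [c] → |phi τ α u| ≤ (1 + |α|) * (C : ℝ) ^ n := by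
    intro u c hu
    refine (phi_abs α u).trans ?_
    have : (u.length : ℝ) ≤ (C : ℝ) ^ n := by exact_mod_cast hu.length_le.trans (len_le_pow n c)
    gcongr
  refine ⟨2 * ((1 + |α|) * (C : ℝ) ^ n), fun x l => ?_⟩
  obtain ⟨s, hs⟩ := h.seg_infix x l n
  have hgoal : (cnt K x l : ℝ) - α * l = phi τ α (seg w x l) := by
    rw [phi, c1_seg hτ, seg_length]
  have hD : 0 ≤ (1 + |α|) * (C : ℝ) ^ n := by positivity
  have hεl : 0 ≤ ε * l := by positivity
  rw [hgoal]
  rw [it_add, it_eq_flatMap] at hs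
  rcases infix_flatMap hs with k | ⟨c, -, k⟩ | ⟨c, z', d, -, p, p', k1, k2, k3⟩
  · rw [k, phi_nil, abs_zero]; linarith
  · have := hsh _ c k; linarith
  · have b1 := hsh _ c k1.isInfix
    have b2 := hsh _ d k2.isInfix
    have b3 := hz z'
    rw [← it_eq_flatMap] at k3
    have b4 : (it σ n z').length ≤ l := by
      have := congrArg List.length k3
      simp only [seg_length, List.length_append] at this
      omega
    have b5 : ε * (it σ n z').length ≤ ε * l := by
      have : ((it σ n z').length : ℝ) ≤ l := by exact_mod_cast b4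
      gcongr
    rw [k3, phi_append, phi_append]
    have t1 := abs_add_le (phi τ α p + phi τ α (it σ n z')) (phi τ α p')
    have t2 := abs_add_le (phi τ α p) (phi τ α (it σ n z'))
    linarith

lemma c1_flatMap (f : A → List A) (z : List A) :
    (c1 τ (z.flatMap f) : ℚ) = (z.map (fun c => (c1 τ (f c) : ℚ))).sum := by
  induction z with
  | nil => simp [c1]
  | cons c z ih => rw [List.flatMap_cons, c1_append]; push_cast; rw [ih]; simp

lemma abs_list_sum_le {g : A → ℚ} {M : ℚ} (h : ∀ c, |g c| ≤ M) (z : List A) :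
    |(z.map g).sum| ≤ z.length * M := by
  induction z with
  | nil => simp
  | cons c z ih =>
    simp only [List.map_cons, List.sum_cons, List.length_cons]
    have := abs_add_le (g c) (z.map g).sum
    have := h c
    push_cast
    linarith

theorem rational_of_uniform [Fintype A] (h : Fix σ a w) (hτ : ∀ n, K n = τ (w n)) {r : ℕ}
    (hr : ∀ b c, c ∈ it σ r [b]) {q : ℕ} (hq : ∀ b, (σ b).length = q) {α : ℝ} (hα : UF K α) :
    ¬ Irrational α := by
  classical
  have hlen : ∀ n b, (it σ n [b]).length = q ^ n := by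
    intro n b
    induction n with
    | zero => simp
    | succ n ih =>
      rw [it_succ', List.length_flatMap]
      simp [hq, ih, pow_succ]
  have hq2 : 2 ≤ q := by
    obtain ⟨n, hn⟩ := h.grow 1
    rw [hlen] at hn
    by_contra hc
    have : q ^ n ≤ 1 := pow_le_one₀ (Nat.zero_le _) (by omega)
    omega
  have hq0 : (0 : ℚ) < q := by exact_mod_cast (show 0 < q by omega)
  let P : (A → ℚ) →ₗ[ℚ] (A → ℚ) :=
    { toFun := fun g b => ((σ b).map g).sum / q
      map_add' := by
        intro g g'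
        funext b
        simp only [Pi.add_apply]
        rw [← add_div, ← List.sum_map_add]
        rfl
      map_smul' := by
        intro c g
        funext b
        simp only [Pi.smul_apply, smul_eq_mul, RingHom.id_apply]
        rw [← mul_div_assoc, ← List.sum_map_mul_left]
        rfl }
  have hP : ∀ g b, P g b = ((σ b).map g).sum / q := fun _ _ => rfl
  let f : ℕ → A → ℚ := fun n b => (c1 τ (it σ n [b]) : ℚ) / (q : ℚ) ^ n
  have hf : ∀ n, f (n + 1) = P (f n) := by
    intro n
    funext b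
    rw [hP]
    simp only [f]
    rw [it_succ_single, it_eq_flatMap, c1_flatMap]
    simp only [div_eq_mul_inv]
    rw [List.sum_map_mul_right, pow_succ, mul_inv, mul_assoc]
  have hbd : ∀ (g : A → ℚ) M, (∀ c, |g c| ≤ M) → ∀ c, |P g c| ≤ M := by
    intro g M hg c
    rw [hP, abs_div, abs_of_pos hq0, div_le_iff₀ hq0]
    have := abs_list_sum_le hg (σ c)
    rw [hq] at this
    linarith
  have hP1 : P 1 = 1 := by
    funext b
    rw [hP]
    have : ((σ b).map (1 : A → ℚ)).sum = q := by
      rw [← hq b]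
      simp [Pi.one_def]
    rw [this, div_self hq0.ne']
    rfl
  have hnot : (1 : A → ℚ) ∉ LinearMap.range (P - LinearMap.id) := by
    rintro ⟨x, hx⟩
    have hx' : P x = x + 1 := by
      simp only [LinearMap.sub_apply, LinearMap.id_apply] at hx
      rw [← hx]; ring
    set M : ℚ := ∑ c, |x c| with hM
    have hM' : ∀ c, |x c| ≤ M := fun c =>
      Finset.single_le_sum (f := fun c => |x c|) (fun _ _ => abs_nonneg _) (Finset.mem_univ c)
    have key : ∀ n : ℕ, ∀ c, |(x + (n : ℚ) • (1 : A → ℚ)) c| ≤ M := by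
      intro n
      induction n with
      | zero => simpa using hM'
      | succ n ih =>
        have := hbd _ M ih
        rw [map_add, map_smul, hP1, hx'] at this
        intro c
        have h2 := this c
        simp only [Pi.add_apply, Pi.smul_apply, Pi.one_apply, smul_eq_mul] at h2 ⊢
        push_cast
        rw [show x c + (n + 1) * 1 = x c + 1 + n * 1 by ring]
        exact h2
    obtain ⟨n, hn⟩ := exists_nat_gt (2 * M)
    have k1 := key n a
    have k2 := hM' a
    simp only [Pi.add_apply, Pi.smul_apply, Pi.one_apply, smul_eq_mul] at k1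
    rw [abs_le] at k1 k2
    linarith [k1.2, k2.1]
  obtain ⟨π, hπ1, hπ2⟩ := Submodule.exists_dual_map_eq_bot_of_notMem hnot inferInstance
  have hπ : ∀ g, π (P g) = π g := by
    intro g
    have : π ((P - LinearMap.id : (A → ℚ) →ₗ[ℚ] (A → ℚ)) g) ∈
        (LinearMap.range (P - LinearMap.id)).map π := Submodule.mem_map_of_mem ⟨g, rfl⟩
    rw [hπ2, Submodule.mem_bot] at this
    simp only [LinearMap.sub_apply, LinearMap.id_apply, map_sub] at this
    linarith
  have hconst : ∀ n, π (f n) = π (f 0) := by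
    intro n
    induction n with
    | zero => rfl
    | succ n ih => rw [hf, hπ, ih]
  have hlim : ∀ b, Tendsto (fun n => ((f n b : ℚ) : ℝ)) atTop (𝓝 α) := by
    intro b
    have hz : ∀ n, ∃ z, it σ n [b] = seg w z (it σ n [b]).length := by
      intro n
      apply h.factor (n := n + r)
      rw [it_add]
      exact it_mem_infix n (hr a b)
    choose z hz using hz
    have := hα.tendsto (x := z) (n := fun n => q ^ n)
      (tendsto_pow_atTop_atTop_of_one_lt (by omega))
    refine this.congr fun n => ?_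
    simp only [f]
    rw [hz n, hlen, c1_seg hτ]
    push_cast
    rfl
  let c : A → ℚ := fun b => π fun j => if b = j then 1 else 0
  have hsum : ∀ g : A → ℚ, π g = ∑ b, g b * c b := by
    intro g
    rw [LinearMap.pi_apply_eq_sum_univ]
    rfl
  have h1 : Tendsto (fun n => ∑ b, ((f n b : ℚ) : ℝ) * (c b : ℝ)) atTop
      (𝓝 (∑ b, α * (c b : ℝ))) := tendsto_finsetSum _ fun b _ => (hlim b).mul_const _
  have h2 : (fun n => ∑ b, ((f n b : ℚ) : ℝ) * (c b : ℝ)) = fun _ => ((π (f 0) : ℚ) : ℝ) := by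
    funext n
    rw [← hconst n, hsum]
    push_cast
    rfl
  rw [h2] at h1
  have h3 := tendsto_nhds_unique h1 tendsto_const_nhds
  have h4 : ((π 1 : ℚ) : ℝ) = ∑ b, (c b : ℝ) := by
    rw [hsum]
    push_cast
    simp
  rw [← Finset.mul_sum, ← h4] at h3
  have h5 : ((π 1 : ℚ) : ℝ) ≠ 0 := by exact_mod_cast hπ1
  intro hirr
  apply hirr
  refine ⟨π (f 0) / π 1, ?_⟩
  push_cast
  rw [← h3]
  field_simp

end Pool.Agent.MP_48844b_co

end
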